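import Mathlib

/-!
# Concentration of positive multiple series

`u : (κ → ℕ) → ℝ` is a positive summable family, `rho u k d = u (d + e_k) / u d`.
-/

namespace Pool.Agent.H71.GC

open Filter Topology Finset

variable {κ : Type} [DecidableEq κ]

/-- The shift `d + e_k`. -/
def sh (k : κ) (d : κ → ℕ) : κ → ℕ := d + Pi.single k 1

theorem sh_self (k : κ) (d : κ → ℕ) : sh k d k = d k + 1 := by simp [sh]

theorem sh_inj (k : κ) : Function.Injective (sh k) := fun _ _ h => add_right_cancel h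

/-- The ratio `u (d + e_k) / u d`. -/
noncomputable def rho (u : (κ → ℕ) → ℝ) (k : κ) (d : κ → ℕ) : ℝ := u (sh k d) / u d

/-- The hypotheses on the weights. -/
structure Hyp (C c : ℝ) (u : (κ → ℕ) → ℝ) : Prop where
  pos : ∀ d, 0 < u d
  summable : Summable u
  ratio : ∀ k d, rho u k d ≤ (1 + C / (d k + 1)) * rho u k (sh k d)
  base : ∀ k d, d k = 0 → c ≤ rho u k d

variable {C c : ℝ} {u : (κ → ℕ) → ℝ}

theorem Hyp.rho_pos (h : Hyp C c u) (k : κ) (d : κ → ℕ) : 0 < rho u k d :=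
  div_pos (h.pos _) (h.pos _)

theorem Hyp.mul_rho (h : Hyp C c u) (k : κ) (d : κ → ℕ) : u d * rho u k d = u (sh k d) := by
  unfold rho
  rw [mul_div_cancel₀ _ (h.pos d).ne']

theorem Hyp.ratio' (h : Hyp C c u) (hC : 0 ≤ C) (k : κ) (d : κ → ℕ) :
    rho u k d ≤ (1 + C) * rho u k (sh k d) := by
  refine (h.ratio k d).trans (mul_le_mul_of_nonneg_right ?_ (h.rho_pos k _).le)
  have : C / (d k + 1 : ℝ) ≤ C := div_le_self hC (by norm_cast; omega)
  linarith

theorem Hyp.sum_pos (h : Hyp C c u) : 0 < ∑' d, u d :=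
  h.summable.tsum_pos (fun d => (h.pos d).le) 0 (h.pos 0)

/-- The sum over `d_k ≥ 1`. -/
theorem sum_shift {F G : (κ → ℕ) → ℝ} (k : κ) (hF : ∀ d, 0 ≤ F d) (hG : Summable G)
    (hG0 : ∀ d, 0 ≤ G d) (hFG : ∀ d, F d ≤ G (sh k d)) :
    Summable F ∧ ∑' d, F d ≤ ∑' d, G d := by
  have h1 : Summable fun d => G (sh k d) := hG.comp_injective (sh_inj k)
  have h2 : Summable F := Summable.of_nonneg_of_le hF hFG h1
  refine ⟨h2, (h2.tsum_le_tsum hFG h1).trans ?_⟩
  exact tsum_comp_le_tsum_of_inj hG hG0 (sh_inj k)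

theorem mom_pos (hC : 0 ≤ C) (p : ℕ) : ∃ K : ℝ, 0 ≤ K ∧ ∀ u : (κ → ℕ) → ℝ, Hyp C c u → ∀ k,
    Summable (fun d => u d * rho u k d ^ p) ∧ ∑' d, u d * rho u k d ^ p ≤ K * ∑' d, u d := by
  induction p with
  | zero =>
    refine ⟨1, zero_le_one, fun u h k => ?_⟩
    simpa using h.summable
  | succ p ih =>
    obtain ⟨K, hK, ih⟩ := ih
    refine ⟨(1 + C) ^ p * K, by positivity, fun u h k => ?_⟩
    obtain ⟨h1, h2⟩ := ih u h k
    have h3 := sum_shift (F := fun d => u d * rho u k d ^ (p + 1))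
      (G := fun d => (1 + C) ^ p * (u d * rho u k d ^ p)) k
      (fun d => mul_nonneg (h.pos d).le (pow_nonneg (h.rho_pos k d).le _)) (h1.mul_left _)
      (fun d => mul_nonneg (by positivity)
        (mul_nonneg (h.pos d).le (pow_nonneg (h.rho_pos k d).le _))) (fun d => by
        have e1 : u d * rho u k d ^ (p + 1) = u (sh k d) * rho u k d ^ p := by
          rw [← h.mul_rho k d]; ring
        rw [e1]
        have e2 : rho u k d ^ p ≤ ((1 + C) * rho u k (sh k d)) ^ p :=
          pow_le_pow_left₀ (h.rho_pos k d).le (h.ratio' hC k d) p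
        calc u (sh k d) * rho u k d ^ p ≤ u (sh k d) * ((1 + C) * rho u k (sh k d)) ^ p :=
              mul_le_mul_of_nonneg_left e2 (h.pos _).le
          _ = (1 + C) ^ p * (u (sh k d) * rho u k (sh k d) ^ p) := by rw [mul_pow]; ring)
    refine ⟨h3.1, h3.2.trans ?_⟩
    rw [tsum_mul_left, mul_assoc]
    exact mul_le_mul_of_nonneg_left h2 (by positivity)

/-- Splitting a sum into `d_k = 0` and `d_k ≥ 1`. -/
theorem sum_split {F G H : (κ → ℕ) → ℝ} (k : κ) (hF : ∀ d, 0 ≤ F d) (hG : Summable G)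
    (hG0 : ∀ d, 0 ≤ G d) (hH : Summable H) (hH0 : ∀ d, 0 ≤ H d) (h0 : ∀ d, d k = 0 → F d ≤ G d)
    (h1 : ∀ d, F (sh k d) ≤ H d) : Summable F ∧ ∑' d, F d ≤ ∑' d, G d + ∑' d, H d := by
  set E : (κ → ℕ) → ℝ := Function.extend (sh k) H 0 with hE
  have hE1 : HasSum E (∑' d, H d) := (hasSum_extend_zero (sh_inj k)).2 hH.hasSum
  have hE0 : ∀ d, 0 ≤ E d := by
    intro d
    by_cases hd : ∃ e, sh k e = d
    · obtain ⟨e, rfl⟩ := hd
      rw [hE, (sh_inj k).extend_apply]
      exact hH0 e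
    · rw [hE, Function.extend_apply' _ _ _ hd]
      rfl
  have hle : ∀ d, F d ≤ G d + E d := by
    intro d
    by_cases hd : d k = 0
    · have := h0 d hd
      have := hE0 d
      linarith
    · have : sh k (d - Pi.single k 1) = d := by
        unfold sh
        funext l
        by_cases hl : l = k
        · subst hl
          simp
          omega
        · simp [hl]
      rw [← this, hE, (sh_inj k).extend_apply]
      have h2 := h1 (d - Pi.single k 1)
      have h3 := hG0 (sh k (d - Pi.single k 1))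
      linarith
  have hs : Summable fun d => G d + E d := hG.add hE1.summable
  refine ⟨Summable.of_nonneg_of_le hF hle hs, ?_⟩
  rw [← hE1.tsum_eq, ← hG.tsum_add hE1.summable]
  exact (Summable.of_nonneg_of_le hF hle hs).tsum_le_tsum hle hs

theorem mom_neg (hC : 0 ≤ C) (hc : 0 < c) (p : ℕ) : ∃ K : ℝ, 0 ≤ K ∧
    ∀ u : (κ → ℕ) → ℝ, Hyp C c u → ∀ k,
    Summable (fun d => u d * (rho u k d)⁻¹ ^ p) ∧
      ∑' d, u d * (rho u k d)⁻¹ ^ p ≤ K * ∑' d, u d := by
  induction p with
  | zero =>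
    refine ⟨1, zero_le_one, fun u h k => ?_⟩
    simpa using h.summable
  | succ p ih =>
    obtain ⟨K, hK, ih⟩ := ih
    refine ⟨c⁻¹ ^ (p + 1) + (1 + C) ^ (p + 1) * K, by positivity, fun u h k => ?_⟩
    obtain ⟨h1, h2⟩ := ih u h k
    have hr : ∀ d, 0 ≤ (rho u k d)⁻¹ := fun d => inv_nonneg.2 (h.rho_pos k d).le
    have h3 := sum_split (F := fun d => u d * (rho u k d)⁻¹ ^ (p + 1))
      (G := fun d => c⁻¹ ^ (p + 1) * u d)
      (H := fun d => (1 + C) ^ (p + 1) * (u d * (rho u k d)⁻¹ ^ p)) k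
      (fun d => mul_nonneg (h.pos d).le (pow_nonneg (hr d) _)) (h.summable.mul_left _)
      (fun d => mul_nonneg (by positivity) (h.pos d).le) (h1.mul_left _)
      (fun d => mul_nonneg (by positivity) (mul_nonneg (h.pos d).le (pow_nonneg (hr d) _)))
      (fun d hd => by
        have e1 : (rho u k d)⁻¹ ^ (p + 1) ≤ c⁻¹ ^ (p + 1) :=
          pow_le_pow_left₀ (hr d) (inv_anti₀ hc (h.base k d hd)) _
        rw [mul_comm (c⁻¹ ^ (p + 1))]
        exact mul_le_mul_of_nonneg_left e1 (h.pos d).le)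
      (fun d => by
        have e1 : (rho u k (sh k d))⁻¹ ≤ (1 + C) * (rho u k d)⁻¹ := by
          have := h.ratio' hC k d
          rw [inv_le_iff_one_le_mul₀ (h.rho_pos k _)]
          have h5 := h.rho_pos k d
          have : 1 ≤ (1 + C) * rho u k (sh k d) * (rho u k d)⁻¹ := by
            rw [← div_eq_mul_inv, one_le_div h5]
            exact this
          linarith
        have e2 : (rho u k (sh k d))⁻¹ ^ (p + 1) ≤ ((1 + C) * (rho u k d)⁻¹) ^ (p + 1) :=
          pow_le_pow_left₀ (hr _) e1 _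
        calc u (sh k d) * (rho u k (sh k d))⁻¹ ^ (p + 1)
            ≤ u (sh k d) * ((1 + C) * (rho u k d)⁻¹) ^ (p + 1) :=
              mul_le_mul_of_nonneg_left e2 (h.pos _).le
          _ = (1 + C) ^ (p + 1) * (u d * (rho u k d)⁻¹ ^ p) := by
              rw [← h.mul_rho k d, mul_pow, pow_succ (rho u k d)⁻¹ p]
              have h5 := mul_inv_cancel₀ (h.rho_pos k d).ne'
              linear_combination ((1 + C) ^ (p + 1) * u d * (rho u k d)⁻¹ ^ p) * h5)
    refine ⟨h3.1, h3.2.trans ?_⟩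
    rw [tsum_mul_left, tsum_mul_left, add_mul, mul_assoc]
    have := mul_le_mul_of_nonneg_left h2 (show 0 ≤ (1 + C) ^ (p + 1) by positivity)
    linarith

/-- (d): few `d` with small `d_k`. -/
theorem sum_small (h : Hyp C c u) {b : ℝ} (hb : 0 < b) (R : ℕ) (k : κ)
    (hR : ∀ d, d k ≤ R → b ≤ rho u k d) :
    Summable (fun d => if d k ≤ R then u d else 0) ∧
      ∑' d, (if d k ≤ R then u d else 0) ≤ b⁻¹ * ∑' d, u d := by
  have h1 := sum_shift (F := fun d => if d k ≤ R then u d else 0) (G := fun d => b⁻¹ * u d) k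
    (fun d => by split_ifs; exacts [(h.pos d).le, le_rfl]) (h.summable.mul_left _)
    (fun d => mul_nonneg (by positivity) (h.pos d).le) (fun d => by
      split_ifs with hd
      · rw [← h.mul_rho k d, le_inv_mul_iff₀ hb, mul_comm]
        exact mul_le_mul_of_nonneg_left (hR d hd) (h.pos d).le
      · exact mul_nonneg (by positivity) (h.pos _).le)
  rw [tsum_mul_left] at h1
  exact h1

/-- The average of `1 / d_k` over `d_k ≥ 1` is small. -/
theorem sum_inv (h : Hyp C c u) {b : ℝ} (hb : 0 < b) (R : ℕ) (k : κ)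
    (hR : ∀ d, d k ≤ R → b ≤ rho u k d) :
    Summable (fun d => u d * (d k : ℝ)⁻¹) ∧
      ∑' d, u d * (d k : ℝ)⁻¹ ≤ (b⁻¹ + (R + 1 : ℝ)⁻¹) * ∑' d, u d := by
  obtain ⟨h1, h2⟩ := sum_small h hb R k hR
  have hle : ∀ d : κ → ℕ, u d * (d k : ℝ)⁻¹
      ≤ (if d k ≤ R then u d else 0) + (R + 1 : ℝ)⁻¹ * u d := by
    intro d
    have hu := (h.pos d).le
    have hR0 : 0 ≤ (R + 1 : ℝ)⁻¹ * u d := by positivity
    split_ifs with hd
    · have h3 : (d k : ℝ)⁻¹ ≤ 1 := by
        rcases Nat.eq_zero_or_pos (d k) with h0 | h0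
        · rw [h0]; simp
        · exact inv_le_one_of_one_le₀ (by exact_mod_cast h0)
      have h4 : u d * (d k : ℝ)⁻¹ ≤ u d * 1 := mul_le_mul_of_nonneg_left h3 hu
      linarith
    · have h3 : (d k : ℝ)⁻¹ ≤ (R + 1 : ℝ)⁻¹ := by
        refine inv_anti₀ (by positivity) ?_
        exact_mod_cast (by omega : R + 1 ≤ d k)
      have h4 := mul_le_mul_of_nonneg_left h3 hu
      linarith
  have hs := h1.add (h.summable.mul_left (R + 1 : ℝ)⁻¹)
  have hs1 : Summable (fun d : κ → ℕ => u d * (d k : ℝ)⁻¹) :=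
    Summable.of_nonneg_of_le (fun d => mul_nonneg (h.pos d).le (by positivity)) hle hs
  refine ⟨hs1, (hs1.tsum_le_tsum hle hs).trans ?_⟩
  rw [h1.tsum_add (h.summable.mul_left _), tsum_mul_left, add_mul]
  linarith

/-- (e): the variance of `rho`. -/
theorem sum_var (h : Hyp C c u) (hC : 0 ≤ C) {b : ℝ} (hb : 0 < b) (R : ℕ) (k : κ)
    (hR : ∀ d, d k ≤ R → b ≤ rho u k d) :
    Summable (fun d => u d * (rho u k d - 1) ^ 2) ∧
      ∑' d, u d * (rho u k d - 1) ^ 2
        ≤ (b⁻¹ + 2 * C * (b⁻¹ + (R + 1 : ℝ)⁻¹)) * ∑' d, u d := by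
  obtain ⟨s1, s1'⟩ := sum_small h hb R k hR
  obtain ⟨s2, s2'⟩ := sum_inv h hb R k hR
  -- the first moment
  have m1 : Summable fun d => u d * rho u k d := by
    simp_rw [h.mul_rho k]
    exact h.summable.comp_injective (sh_inj k)
  -- `∑ u ≤ ∑ u rho + ∑_{d_k = 0} u`
  have e1 : ∑' d, u d ≤ ∑' d, (if d k ≤ R then u d else 0) + ∑' d, u d * rho u k d := by
    refine (sum_split (F := u) (G := fun d => if d k ≤ R then u d else 0)
      (H := fun d => u d * rho u k d) k (fun d => (h.pos d).le) s1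
      (fun d => by split_ifs; exacts [(h.pos d).le, le_rfl]) m1
      (fun d => mul_nonneg (h.pos d).le (h.rho_pos k d).le) (fun d hd => ?_) (fun d => ?_)).2
    · rw [if_pos (by omega)]
    · rw [h.mul_rho]
  -- `∑ u rho / d_k ≤ 2 ∑ u / d_k`
  have e2 := sum_shift (F := fun d => u d * rho u k d * (d k : ℝ)⁻¹)
    (G := fun d => 2 * (u d * (d k : ℝ)⁻¹)) k
    (fun d => mul_nonneg (mul_nonneg (h.pos d).le (h.rho_pos k d).le) (by positivity))
    (s2.mul_left _) (fun d => mul_nonneg (by norm_num) (mul_nonneg (h.pos d).le (by positivity)))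
    (fun d => by
      rw [h.mul_rho, sh_self]
      have hu := (h.pos (sh k d)).le
      have : (d k : ℝ)⁻¹ ≤ 2 * ((d k + 1 : ℕ) : ℝ)⁻¹ := by
        rcases Nat.eq_zero_or_pos (d k) with h0 | h0
        · rw [h0]; simp
        · have h1 : (1 : ℝ) ≤ (d k : ℝ) := by exact_mod_cast h0
          push_cast
          rw [← div_eq_mul_inv, le_div_iff₀ (by positivity), inv_mul_le_iff₀ (by positivity)]
          linarith
      calc u (sh k d) * (d k : ℝ)⁻¹ ≤ u (sh k d) * (2 * ((d k + 1 : ℕ) : ℝ)⁻¹) :=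
            mul_le_mul_of_nonneg_left this hu
        _ = 2 * (u (sh k d) * ((d k + 1 : ℕ) : ℝ)⁻¹) := by ring)
  -- the second moment
  have e3 := sum_shift (F := fun d => u d * rho u k d ^ 2)
    (G := fun d => u d * rho u k d + C * (u d * rho u k d * (d k : ℝ)⁻¹)) k
    (fun d => mul_nonneg (h.pos d).le (by positivity)) (m1.add (e2.1.mul_left _))
    (fun d => by
      have := mul_nonneg (h.pos d).le (h.rho_pos k d).le
      positivity)
    (fun d => by
      have h1 := h.ratio k d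
      have hu := (h.pos (sh k d)).le
      rw [sh_self]
      calc u d * rho u k d ^ 2 = u (sh k d) * rho u k d := by rw [← h.mul_rho k d]; ring
        _ ≤ u (sh k d) * ((1 + C / (d k + 1)) * rho u k (sh k d)) :=
            mul_le_mul_of_nonneg_left h1 hu
        _ = _ := by push_cast; ring)
  rw [m1.tsum_add (e2.1.mul_left _), tsum_mul_left] at e3
  rw [tsum_mul_left] at e2
  have e4 : ∀ d, u d * (rho u k d - 1) ^ 2
      = u d * rho u k d ^ 2 + (u d - 2 * (u d * rho u k d)) := fun d => by ring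
  have s3 : Summable fun d => u d - 2 * (u d * rho u k d) := h.summable.sub (m1.mul_left _)
  constructor
  · simp_rw [e4]
    exact e3.1.add s3
  · simp_rw [e4]
    rw [e3.1.tsum_add s3, h.summable.tsum_sub (m1.mul_left _), tsum_mul_left]
    have hS := h.sum_pos.le
    have e5 := e3.2
    have e6 := mul_le_mul_of_nonneg_left (e2.2.trans (mul_le_mul_of_nonneg_left s2'
      (by norm_num : (0 : ℝ) ≤ 2))) hC
    nlinarith

end Pool.Agent.H71.GC
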