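import Pool.Agent.H71.GC.Conc

/-!
# Concentration of positive multiple series, averages
-/

namespace Pool.Agent.H71.GC

open Filter Topology Finset

variable {κ : Type} [Fintype κ] [DecidableEq κ]

/-- The envelope `1 + ∑_k (rho_k + 1 / rho_k)`. -/
noncomputable def env (u : (κ → ℕ) → ℝ) (d : κ → ℕ) : ℝ :=
  1 + (∑ k, rho u k d + ∑ k, (rho u k d)⁻¹)

variable {C c : ℝ} {u : (κ → ℕ) → ℝ}

theorem one_le_env (h : Hyp C c u) (d : κ → ℕ) : 1 ≤ env u d := by
  unfold env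
  have h1 : 0 ≤ ∑ k, rho u k d := sum_nonneg fun k _ => (h.rho_pos k d).le
  have h2 : 0 ≤ ∑ k, (rho u k d)⁻¹ := sum_nonneg fun k _ => inv_nonneg.2 (h.rho_pos k d).le
  linarith

theorem rho_le_env (h : Hyp C c u) (k : κ) (d : κ → ℕ) : rho u k d ≤ env u d := by
  unfold env
  have h1 : rho u k d ≤ ∑ k, rho u k d :=
    single_le_sum (f := fun k => rho u k d) (fun k _ => (h.rho_pos k d).le) (mem_univ k)
  have h2 : 0 ≤ ∑ k, (rho u k d)⁻¹ := sum_nonneg fun k _ => inv_nonneg.2 (h.rho_pos k d).le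
  linarith

theorem inv_le_env (h : Hyp C c u) (k : κ) (d : κ → ℕ) : (rho u k d)⁻¹ ≤ env u d := by
  unfold env
  have h1 : (rho u k d)⁻¹ ≤ ∑ k, (rho u k d)⁻¹ :=
    single_le_sum (f := fun k => (rho u k d)⁻¹) (fun k _ => inv_nonneg.2 (h.rho_pos k d).le)
      (mem_univ k)
  have h2 : 0 ≤ ∑ k, rho u k d := sum_nonneg fun k _ => (h.rho_pos k d).le
  linarith

omit [DecidableEq κ] in
theorem sum_pow_le {f : κ → ℝ} (hf : ∀ k, 0 ≤ f k) (n : ℕ) :
    (∑ k, f k) ^ (n + 1) ≤ (Fintype.card κ : ℝ) ^ n * ∑ k, f k ^ (n + 1) := by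
  rcases Nat.eq_zero_or_pos (Fintype.card κ) with h0 | h0
  · have : IsEmpty κ := Fintype.card_eq_zero_iff.1 h0
    simp
  · have h1 := pow_sum_div_card_le_sum_pow (s := univ) (f := f) (fun k _ => hf k) n
    have h2 : (0 : ℝ) < (Fintype.card κ : ℝ) ^ n := by positivity
    rw [card_univ, div_le_iff₀ h2] at h1
    linarith

theorem env_pow_le (h : Hyp C c u) (n : ℕ) (d : κ → ℕ) : env u d ^ (n + 1)
    ≤ 2 ^ n * (1 + 2 ^ n * ((Fintype.card κ : ℝ) ^ n *
      (∑ k, rho u k d ^ (n + 1) + ∑ k, (rho u k d)⁻¹ ^ (n + 1)))) := by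
  have h1 : ∀ k, 0 ≤ rho u k d := fun k => (h.rho_pos k d).le
  have h2 : ∀ k, 0 ≤ (rho u k d)⁻¹ := fun k => inv_nonneg.2 (h1 k)
  have s1 : 0 ≤ ∑ k, rho u k d := sum_nonneg fun k _ => h1 k
  have s2 : 0 ≤ ∑ k, (rho u k d)⁻¹ := sum_nonneg fun k _ => h2 k
  have a1 := add_pow_le (zero_le_one' ℝ) (add_nonneg s1 s2) (n + 1)
  have a2 := add_pow_le s1 s2 (n + 1)
  have b1 := sum_pow_le h1 n
  have b2 := sum_pow_le h2 n
  rw [Nat.add_sub_cancel, one_pow] at a1
  rw [Nat.add_sub_cancel] at a2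
  unfold env
  refine a1.trans (mul_le_mul_of_nonneg_left ?_ (by positivity))
  refine add_le_add le_rfl (a2.trans (mul_le_mul_of_nonneg_left ?_ (by positivity)))
  rw [mul_add]
  exact add_le_add b1 b2

theorem mom_env (hC : 0 ≤ C) (hc : 0 < c) (q : ℕ) : ∃ K : ℝ, 0 ≤ K ∧
    ∀ u : (κ → ℕ) → ℝ, Hyp C c u →
    Summable (fun d => u d * env u d ^ q) ∧ ∑' d, u d * env u d ^ q ≤ K * ∑' d, u d := by
  rcases q with _ | n
  · refine ⟨1, zero_le_one, fun u h => ?_⟩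
    simpa using h.summable
  obtain ⟨K1, hK1, h1⟩ := mom_pos (κ := κ) (c := c) hC (n + 1)
  obtain ⟨K2, hK2, h2⟩ := mom_neg (κ := κ) hC hc (n + 1)
  refine ⟨2 ^ n * (1 + 2 ^ n * ((Fintype.card κ : ℝ) ^ n * (Fintype.card κ * K1
    + Fintype.card κ * K2))), by positivity, fun u h => ?_⟩
  have hs1 : Summable fun d => ∑ k, u d * rho u k d ^ (n + 1) :=
    summable_sum fun k _ => (h1 u h k).1
  have hs2 : Summable fun d => ∑ k, u d * (rho u k d)⁻¹ ^ (n + 1) :=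
    summable_sum fun k _ => (h2 u h k).1
  have hle : ∀ d, u d * env u d ^ (n + 1) ≤ 2 ^ n * (u d + 2 ^ n * ((Fintype.card κ : ℝ) ^ n *
      (∑ k, u d * rho u k d ^ (n + 1) + ∑ k, u d * (rho u k d)⁻¹ ^ (n + 1)))) := by
    intro d
    refine (mul_le_mul_of_nonneg_left (env_pow_le h n d) (h.pos d).le).trans (le_of_eq ?_)
    rw [← mul_sum, ← mul_sum]
    ring
  have hs3 := (hs1.add hs2).mul_left ((Fintype.card κ : ℝ) ^ n)
  have hs4 := (h.summable.add (hs3.mul_left (2 ^ n))).mul_left (2 ^ n)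
  have hs : Summable fun d => u d * env u d ^ (n + 1) :=
    Summable.of_nonneg_of_le (fun d => mul_nonneg (h.pos d).le
      (pow_nonneg (zero_le_one.trans (one_le_env h d)) _)) hle hs4
  refine ⟨hs, (hs.tsum_le_tsum hle hs4).trans ?_⟩
  rw [tsum_mul_left, h.summable.tsum_add (hs3.mul_left _), tsum_mul_left, tsum_mul_left,
    hs1.tsum_add hs2, Summable.tsum_finsetSum fun k _ => (h1 u h k).1,
    Summable.tsum_finsetSum fun k _ => (h2 u h k).1, mul_assoc]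
  refine mul_le_mul_of_nonneg_left ?_ (by positivity)
  rw [add_mul, one_mul, mul_assoc, mul_assoc, add_mul]
  refine add_le_add le_rfl (mul_le_mul_of_nonneg_left (mul_le_mul_of_nonneg_left
    (add_le_add ?_ ?_) (by positivity)) (by positivity))
  · refine (sum_le_card_nsmul univ _ (K1 * ∑' d, u d) fun k _ => (h1 u h k).2).trans (le_of_eq ?_)
    rw [card_univ, nsmul_eq_mul]; ring
  · refine (sum_le_card_nsmul univ _ (K2 * ∑' d, u d) fun k _ => (h2 u h k).2).trans (le_of_eq ?_)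
    rw [card_univ, nsmul_eq_mul]; ring

/-- (g): averages of functions which are small where all `rho_k` are close to `1` and all `d_k` are
large. -/
theorem conc (hC : 0 ≤ C) (hc : 0 < c) (u : ℝ → (κ → ℕ) → ℝ) (hu : ∀ t, 1 ≤ t → Hyp C c (u t))
    (hb : ∀ R : ℕ, ∃ b : ℝ, 0 < b ∧ ∀ t, 1 ≤ t → ∀ k d, d k ≤ R → b * t ≤ rho (u t) k d)
    (Φ : ℝ → (κ → ℕ) → ℝ) (hΦ0 : ∀ t, 1 ≤ t → ∀ d, 0 ≤ Φ t d)
    (hΦ1 : ∃ (K : ℝ) (q : ℕ), 0 ≤ K ∧ ∀ t, 1 ≤ t → ∀ d, Φ t d ≤ K * env (u t) d ^ q)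
    (hΦ2 : ∀ ε > 0, ∃ δ > 0, ∃ R : ℕ, ∀ t, 1 ≤ t → ∀ d, (∀ k, |rho (u t) k d - 1| ≤ δ) →
      (∀ k, R < d k) → Φ t d ≤ ε) :
    (∀ t, 1 ≤ t → Summable fun d => u t d * Φ t d) ∧
      ∀ ε > 0, ∀ᶠ t in atTop, ∑' d, u t d * Φ t d ≤ ε * ∑' d, u t d := by
  obtain ⟨K, q, hK, hΦ1⟩ := hΦ1
  obtain ⟨K0, hK0, hm0⟩ := mom_env (κ := κ) hC hc q
  have hsum : ∀ t, 1 ≤ t → Summable fun d => u t d * Φ t d := by
    intro t ht
    have h := hu t ht
    refine Summable.of_nonneg_of_le (fun d => mul_nonneg (h.pos d).le (hΦ0 t ht d)) (fun d => ?_)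
      ((hm0 (u t) h).1.mul_left K)
    rw [mul_left_comm]
    exact mul_le_mul_of_nonneg_left (hΦ1 t ht d) (h.pos d).le
  refine ⟨hsum, ?_⟩
  intro ε hε
  obtain ⟨δ, hδ, R, hδR⟩ := hΦ2 (ε / 4) (by positivity)
  obtain ⟨K2, hK2, hm⟩ := mom_env (κ := κ) hC hc (2 * q)
  -- the parameter `s`
  set s : ℝ := ε / (4 * (K * K2 + 1)) with hs
  have hs0 : 0 < s := by positivity
  have hsK : K * (s * K2) ≤ ε / 4 := by
    have h1 : 0 < K * K2 + 1 := by positivity
    have h2 : K * (s * K2) = ε / 4 * (K * K2 / (K * K2 + 1)) := by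
      rw [hs]; field_simp
    have h3 : K * K2 / (K * K2 + 1) ≤ 1 := by
      rw [div_le_one h1]; linarith
    rw [h2]
    nlinarith
  set A : ℝ := K * (1 / (4 * s)) * Fintype.card κ with hA
  have hA0 : 0 ≤ A := by positivity
  -- the parameter `R'`
  obtain ⟨R', hR'⟩ : ∃ R' : ℕ, A * ((δ ^ 2)⁻¹ * (2 * C * (R' + 1 : ℝ)⁻¹)) ≤ ε / 8 := by
    obtain ⟨n, hn⟩ := exists_nat_ge (A * ((δ ^ 2)⁻¹ * (2 * C)) / (ε / 8))
    refine ⟨n, ?_⟩
    have h1 : A * ((δ ^ 2)⁻¹ * (2 * C)) ≤ ε / 8 * n := by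
      rw [div_le_iff₀ (by positivity)] at hn
      linarith
    have h2 : (0 : ℝ) < (n + 1 : ℝ)⁻¹ := by positivity
    calc A * ((δ ^ 2)⁻¹ * (2 * C * (n + 1 : ℝ)⁻¹))
        = A * ((δ ^ 2)⁻¹ * (2 * C)) * (n + 1 : ℝ)⁻¹ := by ring
      _ ≤ ε / 8 * (n + 1) * (n + 1 : ℝ)⁻¹ :=
          mul_le_mul_of_nonneg_right (by linarith [show (0 : ℝ) < ε / 8 by positivity]) h2.le
      _ = ε / 8 := by field_simp
  obtain ⟨b, hb0, hb⟩ := hb (max R R')
  -- the error as a function of `t`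
  have hlim : Tendsto (fun t : ℝ => A * ((b * t)⁻¹ + (δ ^ 2)⁻¹ * ((b * t)⁻¹ + 2 * C * (b * t)⁻¹)))
      atTop (𝓝 0) := by
    have h1 : Tendsto (fun t : ℝ => (b * t)⁻¹) atTop (𝓝 0) :=
      tendsto_inv_atTop_zero.comp (tendsto_id.const_mul_atTop hb0)
    have h2 := (h1.add ((h1.add (h1.const_mul (2 * C))).const_mul (δ ^ 2)⁻¹)).const_mul A
    simpa using h2
  have hev := hlim.eventually_le_const (show (0 : ℝ) < ε / 8 by positivity)
  filter_upwards [hev, eventually_ge_atTop (1 : ℝ)] with t ht ht1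
  have h := hu t ht1
  have hbt : 0 < b * t := by positivity
  have hS := h.sum_pos.le
  -- the pointwise inequality
  have hpt : ∀ d, u t d * Φ t d ≤ ε / 4 * u t d + (K * (1 / (4 * s)) *
      (∑ k, ((if d k ≤ R then u t d else 0) + (δ ^ 2)⁻¹ * (u t d * (rho (u t) k d - 1) ^ 2)))
      + K * s * (u t d * env (u t) d ^ (2 * q))) := by
    intro d
    have hud := h.pos d
    have hterm : ∀ k, 0 ≤ (if d k ≤ R then u t d else 0)
        + (δ ^ 2)⁻¹ * (u t d * (rho (u t) k d - 1) ^ 2) := by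
      intro k
      have : 0 ≤ (δ ^ 2)⁻¹ * (u t d * (rho (u t) k d - 1) ^ 2) := by positivity
      split_ifs <;> linarith
    have hT : 0 ≤ K * s * (u t d * env (u t) d ^ (2 * q)) := by
      have := pow_nonneg (zero_le_one.trans (one_le_env h d)) (2 * q)
      positivity
    by_cases hgood : (∀ k, |rho (u t) k d - 1| ≤ δ) ∧ ∀ k, R < d k
    · have h1 := mul_le_mul_of_nonneg_left (hδR t ht1 d hgood.1 hgood.2) hud.le
      have h2 : 0 ≤ K * (1 / (4 * s)) * (∑ k, ((if d k ≤ R then u t d else 0)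
          + (δ ^ 2)⁻¹ * (u t d * (rho (u t) k d - 1) ^ 2))) :=
        mul_nonneg (by positivity) (sum_nonneg fun k _ => hterm k)
      linarith
    · have h1 : u t d ≤ ∑ k, ((if d k ≤ R then u t d else 0)
          + (δ ^ 2)⁻¹ * (u t d * (rho (u t) k d - 1) ^ 2)) := by
        rw [not_and_or] at hgood
        rcases hgood with h3 | h3
        · push Not at h3
          obtain ⟨k, hk⟩ := h3
          refine le_trans ?_ (single_le_sum (f := fun k => (if d k ≤ R then u t d else 0)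
            + (δ ^ 2)⁻¹ * (u t d * (rho (u t) k d - 1) ^ 2)) (fun k _ => hterm k) (mem_univ k))
          have h4 : 1 ≤ (δ ^ 2)⁻¹ * (rho (u t) k d - 1) ^ 2 := by
            rw [← div_eq_inv_mul, one_le_div (by positivity)]
            have := sq_abs (rho (u t) k d - 1)
            rw [← this]
            exact pow_le_pow_left₀ hδ.le hk.le 2
          have h5 : u t d * 1 ≤ u t d * ((δ ^ 2)⁻¹ * (rho (u t) k d - 1) ^ 2) :=
            mul_le_mul_of_nonneg_left h4 hud.le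
          have h6 : 0 ≤ (if d k ≤ R then u t d else 0) := by split_ifs <;> linarith
          linarith
        · push Not at h3
          obtain ⟨k, hk⟩ := h3
          refine le_trans ?_ (single_le_sum (f := fun k => (if d k ≤ R then u t d else 0)
            + (δ ^ 2)⁻¹ * (u t d * (rho (u t) k d - 1) ^ 2)) (fun k _ => hterm k) (mem_univ k))
          rw [if_pos hk]
          have : 0 ≤ (δ ^ 2)⁻¹ * (u t d * (rho (u t) k d - 1) ^ 2) := by positivity
          linarith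
      have h2 : env (u t) d ^ q ≤ 1 / (4 * s) + s * env (u t) d ^ (2 * q) := by
        have h3 : (0 : ℝ) ≤ (2 * s * env (u t) d ^ q - 1) ^ 2 := sq_nonneg _
        have h4 : env (u t) d ^ (2 * q) = (env (u t) d ^ q) ^ 2 := by
          rw [← pow_mul, mul_comm]
        rw [h4, ← sub_nonneg]
        have h5 : 1 / (4 * s) + s * (env (u t) d ^ q) ^ 2 - env (u t) d ^ q
            = (2 * s * env (u t) d ^ q - 1) ^ 2 / (4 * s) := by
          field_simp
          ring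
        rw [h5]
        positivity
      have h6 : 0 ≤ ε / 4 * u t d := by positivity
      have hKs : 0 ≤ K * (1 / (4 * s)) := by positivity
      calc u t d * Φ t d ≤ u t d * (K * env (u t) d ^ q) :=
            mul_le_mul_of_nonneg_left (hΦ1 t ht1 d) hud.le
        _ ≤ u t d * (K * (1 / (4 * s) + s * env (u t) d ^ (2 * q))) :=
            mul_le_mul_of_nonneg_left (mul_le_mul_of_nonneg_left h2 hK) hud.le
        _ = K * (1 / (4 * s)) * u t d + K * s * (u t d * env (u t) d ^ (2 * q)) := by ring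
        _ ≤ K * (1 / (4 * s)) * (∑ k, ((if d k ≤ R then u t d else 0)
          + (δ ^ 2)⁻¹ * (u t d * (rho (u t) k d - 1) ^ 2)))
            + K * s * (u t d * env (u t) d ^ (2 * q)) :=
            add_le_add (mul_le_mul_of_nonneg_left h1 hKs) le_rfl
        _ ≤ _ := by linarith
  -- the sums
  have hR : ∀ k d, d k ≤ R → b * t ≤ rho (u t) k d := fun k d hd =>
    hb t ht1 k d (hd.trans (le_max_left _ _))
  have hR'' : ∀ k d, d k ≤ R' → b * t ≤ rho (u t) k d := fun k d hd =>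
    hb t ht1 k d (hd.trans (le_max_right _ _))
  have v1 := fun k => sum_small h hbt R k (hR k)
  have v2 := fun k => sum_var h hC hbt R' k (hR'' k)
  have v3 : ∀ k, Summable fun d => (if d k ≤ R then u t d else 0)
      + (δ ^ 2)⁻¹ * (u t d * (rho (u t) k d - 1) ^ 2) := fun k =>
    (v1 k).1.add ((v2 k).1.mul_left _)
  have v4 : Summable fun d => ∑ k, ((if d k ≤ R then u t d else 0)
      + (δ ^ 2)⁻¹ * (u t d * (rho (u t) k d - 1) ^ 2)) := summable_sum fun k _ => v3 k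
  have v5 := hm (u t) h
  have v6 := (v4.mul_left (K * (1 / (4 * s)))).add (v5.1.mul_left (K * s))
  have v7 := (h.summable.mul_left (ε / 4)).add v6
  refine ((hsum t ht1).tsum_le_tsum hpt v7).trans ?_
  rw [(h.summable.mul_left (ε / 4)).tsum_add v6,
    (v4.mul_left (K * (1 / (4 * s)))).tsum_add (v5.1.mul_left (K * s)),
    tsum_mul_left, tsum_mul_left, tsum_mul_left, Summable.tsum_finsetSum fun k _ => v3 k]
  have w1 : ∀ k, ∑' d, ((if d k ≤ R then u t d else 0)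
      + (δ ^ 2)⁻¹ * (u t d * (rho (u t) k d - 1) ^ 2))
      ≤ ((b * t)⁻¹ + (δ ^ 2)⁻¹ * ((b * t)⁻¹ + 2 * C * ((b * t)⁻¹ + (R' + 1 : ℝ)⁻¹)))
        * ∑' d, u t d := by
    intro k
    rw [(v1 k).1.tsum_add ((v2 k).1.mul_left _), tsum_mul_left]
    have x1 := (v1 k).2
    have x2 := mul_le_mul_of_nonneg_left (v2 k).2 (show 0 ≤ (δ ^ 2)⁻¹ by positivity)
    linarith
  have w2 := sum_le_card_nsmul univ _ _ fun k _ => w1 k
  rw [card_univ, nsmul_eq_mul] at w2
  have w3 := mul_le_mul_of_nonneg_left w2 (show 0 ≤ K * (1 / (4 * s)) by positivity)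
  have w4 := mul_le_mul_of_nonneg_left v5.2 (show 0 ≤ K * s by positivity)
  have w5 := mul_le_mul_of_nonneg_right hsK hS
  have w6 := mul_le_mul_of_nonneg_right ht hS
  have w7 := mul_le_mul_of_nonneg_right hR' hS
  have w8 : K * (1 / (4 * s)) * ((Fintype.card κ : ℝ) * (((b * t)⁻¹ + (δ ^ 2)⁻¹ * ((b * t)⁻¹
      + 2 * C * ((b * t)⁻¹ + (R' + 1 : ℝ)⁻¹))) * ∑' d, u t d))
      = A * ((b * t)⁻¹ + (δ ^ 2)⁻¹ * ((b * t)⁻¹ + 2 * C * (b * t)⁻¹)) * (∑' d, u t d)
        + A * ((δ ^ 2)⁻¹ * (2 * C * (R' + 1 : ℝ)⁻¹)) * ∑' d, u t d := by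
    rw [hA]; ring
  rw [w8] at w3
  nlinarith

end Pool.Agent.H71.GC
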