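import Mathlib

/-!
# Products of powers of sums over the parts of a partition
-/

namespace Pool.Agent.H71.GC

open Finset

variable {I J : Type} [Fintype I] [DecidableEq J]

/-- The part `E_j` of the partition `part` of `I`. -/
def pt (part : I → J) (j : J) : Finset I := univ.filter (fun i => part i = j)

theorem mem_pt {part : I → J} {j : J} {i : I} : i ∈ pt part j ↔ part i = j := by
  simp [pt]

variable [DecidableEq I]

/-- The exponents `d` supported on the parts in `s`, of degree `l j` on `E_j`. -/
def Dset (part : I → J) (s : Finset J) (l : J → ℕ) : Finset (I → ℕ) :=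
  (Fintype.piFinset fun i => range (l (part i) + 1)).filter
    fun d => (∀ i, part i ∉ s → d i = 0) ∧ ∀ j ∈ s, ∑ i ∈ pt part j, d i = l j

theorem mem_Dset {part : I → J} {s : Finset J} {l : J → ℕ} {d : I → ℕ} :
    d ∈ Dset part s l ↔ (∀ i, part i ∉ s → d i = 0) ∧ ∀ j ∈ s, ∑ i ∈ pt part j, d i = l j := by
  constructor
  · intro h
    exact (mem_filter.1 h).2
  · intro h
    refine mem_filter.2 ⟨?_, h⟩
    rw [Fintype.mem_piFinset]
    intro i
    rw [mem_range]
    by_cases hi : part i ∈ s
    · rw [← h.2 _ hi]
      exact Nat.lt_succ_of_le (single_le_sum (f := d) (fun _ _ => Nat.zero_le _) (mem_pt.2 rfl))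
    · rw [h.1 i hi]
      exact Nat.succ_pos _

omit [DecidableEq I] in
theorem prod_pt {R : Type*} [CommSemiring R] {part : I → J} {j : J} {X : I → R} {k : I → ℕ}
    (hk : ∀ i, part i ≠ j → k i = 0) : ∏ i ∈ pt part j, X i ^ k i = ∏ i, X i ^ k i := by
  refine prod_subset (subset_univ _) fun i _ hi => ?_
  rw [hk i fun h => hi (mem_pt.2 h), pow_zero]

theorem prod_parts {R : Type*} [CommSemiring R] (part : I → J) (X : I → R) (l : J → ℕ)
    (s : Finset J) :
    ∏ j ∈ s, (∑ i ∈ pt part j, X i) ^ l j
      = ∑ e ∈ Dset part s l, (∏ j ∈ s, (Nat.multinomial (pt part j) e : R)) * ∏ i, X i ^ e i := by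
  induction s using Finset.induction_on with
  | empty =>
    have : Dset part ∅ l = {0} := by
      ext d
      rw [mem_Dset, mem_singleton]
      simp [funext_iff]
    rw [this]
    simp
  | insert a s ha ih =>
    rw [prod_insert ha, ih, sum_pow_eq_sum_piAntidiag, sum_mul_sum, ← sum_product']
    refine sum_bij' (fun p _ => p.1 + p.2)
      (fun d _ => (fun i => if part i = a then d i else 0, fun i => if part i = a then 0 else d i))
      ?_ ?_ ?_ ?_ ?_
    · rintro ⟨k, e⟩ hp
      rw [mem_product, mem_piAntidiag, mem_Dset] at hp
      obtain ⟨⟨h1, h2⟩, h3, h4⟩ := hp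
      dsimp only at h1 h2 h3 h4
      have hk : ∀ i, part i ≠ a → k i = 0 := fun i hi => by
        by_contra h
        exact hi (mem_pt.1 (h2 i h))
      rw [mem_Dset]
      refine ⟨fun i hi => ?_, fun j hj => ?_⟩
      · rw [mem_insert, not_or] at hi
        show k i + e i = 0
        rw [hk i hi.1, h3 i hi.2]
      · show ∑ i ∈ pt part j, (k i + e i) = l j
        rw [sum_add_distrib]
        rcases mem_insert.1 hj with hj' | hj'
        · subst hj'
          rw [sum_eq_zero (f := e) fun i hi => h3 i (by rw [mem_pt.1 hi]; exact ha), add_zero]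
          exact h1
        · rw [sum_eq_zero (f := k) fun i hi => hk i (by
            rw [mem_pt.1 hi]
            rintro rfl
            exact ha hj'), zero_add]
          exact h4 j hj'
    · intro d hd
      rw [mem_Dset] at hd
      rw [mem_product, mem_piAntidiag, mem_Dset]
      refine ⟨⟨?_, ?_⟩, ?_, ?_⟩
      · rw [← hd.2 a (mem_insert_self a s)]
        refine sum_congr rfl fun i hi => ?_
        show (if part i = a then d i else 0) = d i
        rw [if_pos (mem_pt.1 hi)]
      · intro i hi
        rw [mem_pt]
        by_contra h
        exact hi (if_neg h)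
      · intro i hi
        show (if part i = a then 0 else d i) = 0
        split_ifs with h
        · rfl
        · exact hd.1 i (by simp [h, hi])
      · intro j hj
        rw [← hd.2 j (mem_insert_of_mem hj)]
        refine sum_congr rfl fun i hi => ?_
        show (if part i = a then 0 else d i) = d i
        rw [if_neg]
        rw [mem_pt.1 hi]
        rintro rfl
        exact ha hj
    · rintro ⟨k, e⟩ hp
      rw [mem_product, mem_piAntidiag, mem_Dset] at hp
      obtain ⟨⟨h1, h2⟩, h3, h4⟩ := hp
      dsimp only at h1 h2 h3 h4
      have hk : ∀ i, part i ≠ a → k i = 0 := fun i hi => by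
        by_contra h
        exact hi (mem_pt.1 (h2 i h))
      have he : ∀ i, part i = a → e i = 0 := fun i hi => h3 i (by rw [hi]; exact ha)
      refine Prod.ext ?_ ?_
      · funext i
        show (if part i = a then k i + e i else 0) = k i
        split_ifs with h
        · rw [he i h, add_zero]
        · exact (hk i h).symm
      · funext i
        show (if part i = a then 0 else k i + e i) = e i
        split_ifs with h
        · exact (he i h).symm
        · rw [hk i h, zero_add]
    · intro d hd
      funext i
      show (if part i = a then d i else 0) + (if part i = a then 0 else d i) = d i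
      split_ifs <;> simp
    · rintro ⟨k, e⟩ hp
      rw [mem_product, mem_piAntidiag, mem_Dset] at hp
      obtain ⟨⟨h1, h2⟩, h3, h4⟩ := hp
      dsimp only at h1 h2 h3 h4
      have hk : ∀ i, part i ≠ a → k i = 0 := fun i hi => by
        by_contra h
        exact hi (mem_pt.1 (h2 i h))
      have he : ∀ i, part i = a → e i = 0 := fun i hi => h3 i (by rw [hi]; exact ha)
      show (Nat.multinomial (pt part a) k : R) * (∏ i ∈ pt part a, X i ^ k i)
          * ((∏ j ∈ s, (Nat.multinomial (pt part j) e : R)) * ∏ i, X i ^ e i)
        = (∏ j ∈ insert a s, (Nat.multinomial (pt part j) (k + e) : R)) * ∏ i, X i ^ (k i + e i)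
      have m1 : Nat.multinomial (pt part a) (k + e) = Nat.multinomial (pt part a) k :=
        Nat.multinomial_congr fun i hi => by
          show k i + e i = k i
          rw [he i (mem_pt.1 hi), add_zero]
      have m2 : ∏ j ∈ s, (Nat.multinomial (pt part j) (k + e) : R)
          = ∏ j ∈ s, (Nat.multinomial (pt part j) e : R) := by
        refine prod_congr rfl fun j hj => ?_
        congr 1
        refine Nat.multinomial_congr fun i hi => ?_
        show k i + e i = e i
        rw [hk i ?_, zero_add]
        rw [mem_pt.1 hi]
        rintro rfl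
        exact ha hj
      rw [prod_insert ha, m1, m2, prod_pt hk]
      simp only [pow_add, prod_mul_distrib]
      ring

end Pool.Agent.H71.GC
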