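import Pool.Agent.H75.GC.Def
import Pool.Agent.H71.GC.Multi

/-!
# MP_f0f0c5 (H71/GC): nef partitions, complete intersections in smooth projective toric varieties and
their mirrors

`Fano` (a Fano manifold with its quantum connection and `J`-function) is the structure of helper75.
-/

namespace Pool.Agent.H71.GC

open Finset MeasureTheory Pool.Agent.H75.GC

/-- The monomial `x^v`. -/
noncomputable def mon {n : ℕ} (x : Fin n → ℝ) (v : Fin n → ℤ) : ℝ := ∏ a, x a ^ v a

/-- The data of a fan in `ℤ^n` and of a partition `E_0, .., E_k` of the set `I` of its rays. -/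
structure FanData where
  n : ℕ
  /-- the rays of the fan -/
  I : Type
  [fin : Fintype I]
  [dec : DecidableEq I]
  /-- the primitive generators of the rays -/
  b : I → Fin n → ℤ
  /-- the maximal cones, as sets of rays -/
  cones : Set (Finset I)
  /-- the number of line bundles `L_1, .., L_k` -/
  k : ℕ
  /-- `E_j` is the set of the `i` with `part i = j` -/
  part : I → Fin (k + 1)

attribute [instance] FanData.fin FanData.dec

namespace FanData

variable (D : FanData)

/-- The degree on the `i`-th ray of the linear function of `L_j = ∑_{E_j} D_i` on a cone which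
contains this ray: `-1` if `i ∈ E_j`, and `0` otherwise. -/
def deg (j : Fin (D.k + 1)) (i : D.I) : ℤ := - (if D.part i = j then 1 else 0)

/-- The generators of a maximal cone are a basis of `ℤ^n` (smoothness). -/
def Smooth : Prop := ∀ σ ∈ D.cones, ∀ v : Fin D.n → ℤ,
  ∃! a : D.I → ℤ, (∀ i, i ∉ σ → a i = 0) ∧ ∑ i, a i • D.b i = v

/-- The cones cover the space. -/
def Complete : Prop := ∀ v : Fin D.n → ℤ,
  ∃ σ ∈ D.cones, ∃ a : D.I → ℕ, (∀ i, i ∉ σ → a i = 0) ∧ ∑ i, a i • D.b i = v

/-- Two cones meet along a common face. -/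
def Faces : Prop := ∀ σ ∈ D.cones, ∀ τ ∈ D.cones, ∀ a a' : D.I → ℕ, (∀ i, i ∉ σ → a i = 0) →
  (∀ i, i ∉ τ → a' i = 0) → ∑ i, a i • D.b i = ∑ i, a' i • D.b i → a = a'

/-- `L_j` is nef: its linear function on a maximal cone is a section of `L_j`. -/
def Nef (j : Fin (D.k + 1)) : Prop := ∀ σ ∈ D.cones, ∃ m : Fin D.n → ℤ,
  (∀ i ∈ σ, m ⬝ᵥ D.b i = D.deg j i) ∧ ∀ i, D.deg j i ≤ m ⬝ᵥ D.b i

/-- `L_j` is ample: strict inequality on the rays outside of the cone. -/
def Ample (j : Fin (D.k + 1)) : Prop := ∀ σ ∈ D.cones, ∃ m : Fin D.n → ℤ,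
  (∀ i ∈ σ, m ⬝ᵥ D.b i = D.deg j i) ∧ ∀ i, i ∉ σ → D.deg j i < m ⬝ᵥ D.b i

/-- `F_j = ∑_{i ∈ E_j} x^(b_i)`. -/
noncomputable def F (j : Fin (D.k + 1)) (x : Fin D.n → ℝ) : ℝ := ∑ i ∈ pt D.part j, mon x (D.b i)

/-- The potential `W = ∑_{i ∈ E_0} x^(b_i)`. -/
noncomputable def W (x : Fin D.n → ℝ) : ℝ := D.F 0 x

/-- The positive real locus `C_+` of the mirror `F_1 = .. = F_k = 1`. -/
def Cplus : Set (Fin D.n → ℝ) := {x | (∀ a, 0 < x a) ∧ ∀ j, j ≠ 0 → D.F j x = 1}

/-- The relations `d ∈ ℕ^I`, `∑ d_i b_i = 0`, with `L_0 . d = m`; `d_i` is the intersection number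
with the `i`-th toric divisor, `∑_{E_j} d_i` the one with `L_j`. -/
def rel (m : ℕ) : Set (D.I → ℕ) :=
  {d | ∑ i, d i • D.b i = 0 ∧ ∑ i ∈ pt D.part 0, d i = m}

/-- `b_m = ∑_d ∏_(j = 0 .. k) (L_j . d)! / ∏_i (D_i . d)!` over the relations with `L_0 . d = m`. -/
noncomputable def coef (m : ℕ) : ℕ :=
  ∑ᶠ d ∈ D.rel m, ∏ j, Nat.multinomial (pt D.part j) d

/-- The mirror theorem for the quantum period of `Y`: `e^(c t) G_Y(t) = ∑ b_m t^m / m!`, `c = b_1`,
coefficient by coefficient. -/
def Period (Y : Fano) : Prop := ∀ m : ℕ, ∑ l ∈ range (m + 1),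
    ((D.coef 1 : ℂ) ^ (m - l) / ((m - l).factorial : ℂ)) * Y.eps (Y.J l)
  = (D.coef m : ℂ) / (m.factorial : ℂ)

/-- The absolutely convergent integral `z^e ∫_{C_+} x^v e^(-(W - c) / z) ω`. -/
noncomputable def osc (ω : Measure (Fin D.n → ℝ)) (e : ℝ) (v : Fin D.n → ℤ) (z : ℝ) : ℝ :=
  z ^ e * ∫ x in D.Cplus, mon x v * Real.exp (-(D.W x - D.coef 1) / z) ∂ω

/-- All integrals over `C_+` converge. -/
def Converges (ω : Measure (Fin D.n → ℝ)) : Prop := ∀ (z : ℝ) (v : Fin D.n → ℤ), 0 < z →
  IntegrableOn (fun x => mon x v * Real.exp (-(D.W x) / z)) D.Cplus ω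

/-- The mirror theorem for the Gamma class of `Y`: its flat section is a finite sum of oscillatory
integrals over `C_+` times classes `h_i`. -/
def Mirror (Y : Fano) : Prop := ∃ (ω : Measure (Fin D.n → ℝ)) (N : ℕ) (e : Fin N → ℝ)
    (v : Fin N → Fin D.n → ℤ) (h : Fin N → Y.H), D.Converges ω ∧
  ∀ z : ℝ, 0 < z → Y.sec Y.gammaClass z = ∑ i, (D.osc ω (e i) (v i) z : ℂ) • h i

end FanData

/-- A smooth projective toric variety `V`, given by its fan in `ℤ^n`, with a nef partition: `L_j` is
the sum of the toric divisors of `E_j`, the classes `L_1, .., L_k` are nef and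
`L_0 = - K_V - L_1 - .. - L_k` is ample. -/
structure NefPartition extends FanData where
  smooth : toFanData.Smooth
  complete : toFanData.Complete
  faces : toFanData.Faces
  ray : ∀ i, ∃ σ ∈ cones, i ∈ σ
  nonempty : ∀ j, j ≠ 0 → ∃ i, part i = j
  nef : ∀ j, j ≠ 0 → toFanData.Nef j
  ample : toFanData.Ample 0

/-- A smooth complete intersection `Y` of sections of the line bundles `L_1, .., L_k` of a nef
partition; it is Fano, as `- K_Y` is the restriction of `L_0`. -/
structure ToricCI where
  D : NefPartition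
  Y : Fano
  /-- Theorem (mirror theorem and quantum Lefschetz; Givental, Lian-Liu-Yau, Coates-Givental).
  The mirror map is the constant `c t`, because `L_0 . d` is positive for all effective classes. -/
  period : D.Period Y
  /-- Theorem (Iritani, Galkin-Iritani): the pairing of the flat section of the Gamma class with `1`
  is a power of `z` times the integral of `e^(-(W - c)/z)` over `C_+` against the holomorphic volume
  form, a positive measure `ω`. The flat section takes values in the ambient part of `H^ev(Y)`,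
  which is generated by divisors, and its other components are obtained from this one by
  differentiating `e^(-(W_q - c(q))/z)` with respect to the parameters `q`, which are coefficients
  of `W` (the ambient part of the quantum `D`-module is generated by `1` over the polynomials in
  `q` and `z`). -/
  mirror : D.Mirror Y

end Pool.Agent.H71.GC
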