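import Pool.Agent.H71.GC.Wt
import Pool.Agent.H75.GC.Nil

/-!
# The Gamma factors of a hypergeometric series with values in an algebra
-/

namespace Pool.Agent.H71.GC

open Filter Topology Finset NormedSpace Pool.Agent.H75.GC

section Alg

variable {A : Type} [NormedCommRing A] [NormedAlgebra ℝ A] [CompleteSpace A]

theorem isUnit_eexp (x : A) : IsUnit (exp x) := ⟨⟨exp x, exp (-x), emul_neg x, eneg_mul x⟩, rfl⟩

theorem inv_eexp (x : A) : Ring.inverse (exp x) = exp (-x) := by
  have h : exp x = ((⟨exp x, exp (-x), emul_neg x, eneg_mul x⟩ : Aˣ) : A) := rfl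
  rw [h, Ring.inverse_unit]
  rfl

theorem pf_unit {x : A} {D : ℕ} (hx : x ^ (D + 1) = 0) (n : ℕ) : IsUnit (pf x n) := by
  rw [pf_eq hx]
  exact isUnit_eexp _

/-- `r_n(x) = Γ(1 + x) ∏ (1 + x / m) n^(-x)`, which tends to `1`. -/
noncomputable def rr (D : ℕ) (x : A) (n : ℕ) : A := gam D x * (pf x n * exp (-(Real.log n • x)))

theorem rr_lim {x : A} {D : ℕ} (hx : x ^ (D + 1) = 0) : Tendsto (rr D x) atTop (𝓝 1) :=
  gam_mul_tendsto hx

theorem rr_inv_lim {x : A} {D : ℕ} (hx : x ^ (D + 1) = 0) :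
    Tendsto (fun n => Ring.inverse (rr D x n)) atTop (𝓝 1) := by
  have h := (NormedRing.inverse_continuousAt (1 : Aˣ)).tendsto.comp (rr_lim hx)
  have h1 : Ring.inverse ((1 : Aˣ) : A) = 1 := by simp
  rw [h1] at h
  exact h

theorem gam_pf {x : A} {D : ℕ} (n : ℕ) : gam D x * pf x n = exp (Real.log n • x) * rr D x n := by
  unfold rr
  have h := emul_neg (Real.log n • x)
  calc gam D x * pf x n = (exp (Real.log n • x) * exp (-(Real.log n • x))) * (gam D x * pf x n) := by
        rw [h, one_mul]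
    _ = _ := by ring

theorem gam_pf_inv {x : A} {D : ℕ} (n : ℕ) : Ring.inverse (gam D x) * Ring.inverse (pf x n)
      = exp (-(Real.log n • x)) * Ring.inverse (rr D x n) := by
  have h := gam_pf (A := A) (x := x) (D := D) n
  have h1 : Ring.inverse (gam D x * pf x n) = Ring.inverse (pf x n) * Ring.inverse (gam D x) :=
    Ring.mul_inverse_rev _ _
  have h2 : Ring.inverse (exp (Real.log n • x) * rr D x n)
      = Ring.inverse (rr D x n) * Ring.inverse (exp (Real.log n • x)) :=
    Ring.mul_inverse_rev _ _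
  rw [mul_comm, ← h1, h, h2, inv_eexp, mul_comm]

omit [NormedAlgebra ℝ A] [CompleteSpace A] in
/-- A convergent sequence is bounded. -/
theorem bdd_of_lim {r : ℕ → A} {a : A} (h : Tendsto r atTop (𝓝 a)) :
    ∃ B : ℝ, 1 ≤ B ∧ ∀ n, ‖r n‖ ≤ B := by
  obtain ⟨B, hB⟩ := (Metric.isBounded_range_of_tendsto r h).exists_norm_le
  exact ⟨max B 1, le_max_right _ _, fun n => (hB _ ⟨n, rfl⟩).trans (le_max_left _ _)⟩

omit [NormedAlgebra ℝ A] [CompleteSpace A] in
/-- Continuity of finite products at `1`. -/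
theorem prod_close {α : Type} [Fintype α] {ε : ℝ} (hε : 0 < ε) :
    ∃ η > 0, ∀ x : α → A, (∀ i, ‖x i - 1‖ ≤ η) → ‖∏ i, x i - 1‖ ≤ ε := by
  have hc : Continuous fun x : α → A => ∏ i, x i :=
    continuous_finsetProd _ fun i _ => continuous_apply i
  have h1 := hc.tendsto (fun _ => (1 : A))
  simp only [prod_const_one] at h1
  rw [Metric.tendsto_nhds_nhds] at h1
  obtain ⟨η, hη, h2⟩ := h1 ε hε
  refine ⟨η / 2, by positivity, fun x hx => ?_⟩
  have h3 : dist x (fun _ => (1 : A)) < η := by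
    refine lt_of_le_of_lt ((dist_pi_le_iff (by positivity)).2 fun i => ?_) (half_lt_self hη)
    rw [dist_eq_norm]
    exact hx i
  have h4 := h2 h3
  rw [dist_eq_norm] at h4
  exact h4.le

omit [CompleteSpace A] in
theorem fac_pf (x : A) (n : ℕ) :
    ∏ m ∈ range n, (((m : ℝ) + 1) • (1 : A) + x) = (n.factorial : ℝ) • pf x n := by
  unfold pf
  induction n with
  | zero => simp
  | succ n ih =>
    rw [prod_range_succ, prod_range_succ, ih, Nat.factorial_succ]
    have h1 : ((n : ℝ) + 1) • (1 : A) + x = ((n : ℝ) + 1) • (1 + ((n : ℝ) + 1)⁻¹ • x) := by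
      rw [smul_add, smul_smul, mul_inv_cancel₀ (by positivity), one_smul]
    rw [h1, smul_mul_smul_comm]
    congr 1
    push_cast
    ring

omit [CompleteSpace A] in
theorem inverse_smul {c : ℝ} (hc : c ≠ 0) {x : A} (hx : IsUnit x) :
    Ring.inverse (c • x) = c⁻¹ • Ring.inverse x := by
  obtain ⟨u, rfl⟩ := hx
  have h : c • (u : A) = ((⟨c • (u : A), c⁻¹ • ((u⁻¹ : Aˣ) : A), by
    rw [smul_mul_smul_comm, mul_inv_cancel₀ hc, one_smul, Units.mul_inv], by
    rw [smul_mul_smul_comm, inv_mul_cancel₀ hc, one_smul, Units.inv_mul]⟩ : Aˣ) : A) := rfl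
  rw [h, Ring.inverse_unit, Ring.inverse_unit]
  rfl

omit [NormedAlgebra ℝ A] [CompleteSpace A] in
theorem inverse_prod {α : Type} (s : Finset α) (f : α → A) :
    Ring.inverse (∏ i ∈ s, f i) = ∏ i ∈ s, Ring.inverse (f i) := by
  classical
  induction s using Finset.induction_on with
  | empty => simp
  | insert i s hi ih =>
    rw [prod_insert hi, prod_insert hi, Ring.mul_inverse_rev, ih, mul_comm]

theorem eprod {α : Type} (u : Finset α) (f : α → A) :
    ∏ i ∈ u, exp (f i) = exp (∑ i ∈ u, f i) := by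
  classical
  induction u using Finset.induction_on with
  | empty => simp
  | insert i s hi ih => rw [prod_insert hi, sum_insert hi, ih, eadd]

end Alg

section Log

/-- The logarithm of `(n + 1) .. (n + m)`. -/
theorem log_P (n m : ℕ) : |Real.log (P n m) - m * Real.log n| ≤ m * m / max (n : ℝ) 1 := by
  have h1 : Real.log (P n m) - m * Real.log n
      = ∑ l ∈ range m, (Real.log ((n : ℝ) + l + 1) - Real.log n) := by
    unfold P
    rw [Real.log_prod (fun l _ => by positivity), sum_sub_distrib]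
    simp
  rw [h1]
  refine (abs_sum_le_sum_abs _ _).trans ?_
  have h2 : ∀ l ∈ range m, |Real.log ((n : ℝ) + l + 1) - Real.log n| ≤ m / max (n : ℝ) 1 := by
    intro l hl
    have hl' : ((l : ℝ) + 1) ≤ m := by exact_mod_cast mem_range.1 hl
    rcases Nat.eq_zero_or_pos n with h0 | h0
    · subst h0
      have h3 : 0 ≤ Real.log ((l : ℝ) + 1) := Real.log_nonneg (by
        have : (0 : ℝ) ≤ l := Nat.cast_nonneg _
        linarith)
      have h4 := Real.log_le_sub_one_of_pos (show (0 : ℝ) < (l : ℝ) + 1 by positivity)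
      simp only [Nat.cast_zero, Real.log_zero, sub_zero, zero_add]
      rw [abs_of_nonneg h3, max_eq_right zero_le_one, div_one]
      linarith
    · have hn : (1 : ℝ) ≤ n := by exact_mod_cast h0
      have hn0 : (0 : ℝ) < n := by linarith
      have h3 : Real.log ((n : ℝ) + l + 1) - Real.log n = Real.log (((n : ℝ) + l + 1) / n) :=
        (Real.log_div (by positivity) hn0.ne').symm
      have h4 : 1 ≤ ((n : ℝ) + l + 1) / n := by
        rw [one_le_div hn0]
        have : (0 : ℝ) ≤ l := Nat.cast_nonneg _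
        linarith
      have h5 := Real.log_le_sub_one_of_pos (show 0 < ((n : ℝ) + l + 1) / n by positivity)
      rw [h3, abs_of_nonneg (Real.log_nonneg h4), max_eq_left hn]
      refine h5.trans ?_
      have h6 : ((n : ℝ) + l + 1) / n - 1 = ((l : ℝ) + 1) / n := by
        field_simp
        ring
      rw [h6]
      exact div_le_div_of_nonneg_right hl' hn0.le
  refine (sum_le_sum h2).trans (le_of_eq ?_)
  rw [sum_const, card_range, nsmul_eq_mul]
  ring

variable {ι J κ : Type} [Fintype ι] [Fintype J] [Fintype κ] [DecidableEq κ]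

/-- The exponent `A_k`. -/
noncomputable def Ak (w : ι → κ → ℕ) (a : J → κ → ℕ) (t : ℝ) (k : κ) (d : κ → ℕ) : ℝ :=
  ind w a k * Real.log t + ∑ j, a j k * Real.log (dot (a j) d)
    - ∑ i, w i k * Real.log (dot (w i) d)

/-- The constant in (f). -/
noncomputable def cst' (w : ι → κ → ℕ) (a : J → κ → ℕ) : ℝ :=
  ∑ k, (∑ j, (a j k : ℝ) * a j k + ∑ i, (w i k : ℝ) * w i k)

omit [DecidableEq κ] in
theorem cst'_nonneg (w : ι → κ → ℕ) (a : J → κ → ℕ) : 0 ≤ cst' w a := by
  unfold cst'
  positivity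

omit [DecidableEq κ] in
theorem log_P_dot (v d : κ → ℕ) (k : κ) :
    |Real.log (P (dot v d) (v k)) - v k * Real.log (dot v d)| ≤ v k * v k / max (d k : ℝ) 1 := by
  rcases Nat.eq_zero_or_pos (v k) with h0 | h0
  · rw [h0]
    simp [P]
  · refine (log_P _ _).trans (div_le_div_of_nonneg_left (by positivity) (by positivity) ?_)
    refine max_le_max ?_ le_rfl
    exact_mod_cast le_dot v k d h0

/-- (f): the exponent is close to the logarithm of the ratio. -/
theorem Ak_close (w : ι → κ → ℕ) (a : J → κ → ℕ) {t : ℝ} (ht : 0 < t) (k : κ) (d : κ → ℕ) :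
    |Ak w a t k d - Real.log (rho (wt w a t) k d)| ≤ cst' w a / max (d k : ℝ) 1 := by
  have p1 : ∏ j, P (dot (a j) d) (a j k) ≠ 0 := prod_ne_zero_iff.2 fun _ _ => (P_pos _ _).ne'
  have p2 : ∏ i, P (dot (w i) d) (w i k) ≠ 0 := prod_ne_zero_iff.2 fun _ _ => (P_pos _ _).ne'
  have h1 : Real.log (rho (wt w a t) k d) = ind w a k * Real.log t
      + ∑ j, Real.log (P (dot (a j) d) (a j k)) - ∑ i, Real.log (P (dot (w i) d) (w i k)) := by
    rw [rho_wt w a ht, Real.log_div (mul_ne_zero (by positivity) p1) p2,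
      Real.log_mul (by positivity) p1, Real.log_pow, Real.log_prod fun _ _ => (P_pos _ _).ne',
      Real.log_prod fun _ _ => (P_pos _ _).ne']
  have h2 : Ak w a t k d - Real.log (rho (wt w a t) k d)
      = -(∑ j, (Real.log (P (dot (a j) d) (a j k)) - a j k * Real.log (dot (a j) d)))
        + ∑ i, (Real.log (P (dot (w i) d) (w i k)) - w i k * Real.log (dot (w i) d)) := by
    rw [h1, Ak, sum_sub_distrib, sum_sub_distrib]
    ring
  rw [h2]
  refine (abs_add_le _ _).trans ?_
  rw [abs_neg]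
  have h3 : |∑ j, (Real.log (P (dot (a j) d) (a j k)) - a j k * Real.log (dot (a j) d))|
      ≤ (∑ j, (a j k : ℝ) * a j k) / max (d k : ℝ) 1 := by
    rw [sum_div]
    exact (abs_sum_le_sum_abs _ _).trans (sum_le_sum fun j _ => log_P_dot _ _ _)
  have h4 : |∑ i, (Real.log (P (dot (w i) d) (w i k)) - w i k * Real.log (dot (w i) d))|
      ≤ (∑ i, (w i k : ℝ) * w i k) / max (d k : ℝ) 1 := by
    rw [sum_div]
    exact (abs_sum_le_sum_abs _ _).trans (sum_le_sum fun j _ => log_P_dot _ _ _)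
  have h5 : (∑ j, (a j k : ℝ) * a j k + ∑ i, (w i k : ℝ) * w i k) ≤ cst' w a :=
    single_le_sum (f := fun k => ∑ j, (a j k : ℝ) * a j k + ∑ i, (w i k : ℝ) * w i k)
      (fun k _ => by positivity) (mem_univ k)
  refine (add_le_add h3 h4).trans ?_
  rw [← add_div]
  exact div_le_div_of_nonneg_right h5 (by positivity)

end Log

end Pool.Agent.H71.GC
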