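import Pool.Agent.H75.GC.Def

/-!
# Fano manifolds with a hypergeometric `J`-function

The examples: `Y` a smooth complete intersection of Cartier divisors in a product of weighted
projective spaces, contained in the smooth locus, and cyclic covers of products of projective spaces.
`Fano` (a Fano manifold with its quantum connection and `J`-function) is the structure of helper75.
-/

namespace Pool.Agent.H71.GC

open Finset Pool.Agent.H75.GC

/-- The value `∑_k v_k d_k`. -/
def dot {κ : Type} [Fintype κ] (v d : κ → ℕ) : ℕ := ∑ k, v k * d k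

/-- The index `i_k = ∑_i w_ik - ∑_j a_jk`. -/
def ind {ι J κ : Type} [Fintype ι] [Fintype J] (w : ι → κ → ℕ) (a : J → κ → ℕ) (k : κ) : ℕ :=
  ∑ i, w i k - ∑ j, a j k

/-- The classes `D_i = ∑_k w_ik h_k`, `i ∈ S`, are dominated by different classes
`L_j = ∑_k a_jk h_k`; every other class `D_i` is a multiple of one `h_k`. -/
def Matched {ι J κ : Type} (w : ι → κ → ℕ) (a : J → κ → ℕ) : Prop :=
  ∃ (S : Finset ι) (f : S → J), Function.Injective f ∧ (∀ i : S, ∀ k, w i k ≤ a (f i) k) ∧
    ∀ i, i ∉ S → ∃ k, ∀ l, l ≠ k → w i l = 0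

/-- The data of a Fano manifold `Y` of hypergeometric type: classes `h_k` of degree two and the
exponents `w` of the denominator and `a` of the numerator of the `J`-function. -/
structure HData (ι J κ : Type) where
  Y : Fano
  h : κ → Y.H
  w : ι → κ → ℕ
  a : J → κ → ℕ

namespace HData

variable {ι J κ : Type} [Fintype ι] [Fintype J] [Fintype κ] (P : HData ι J κ)

/-- The class `∑_k v_k h_k`; `D_i = cl (w i)` and `L_j = cl (a j)`. -/
noncomputable def cl (v : κ → ℕ) : P.Y.H := ∑ k, (v k : ℂ) • P.h k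

/-- `∏_j ∏_m (m + cl (v j))`, `1 ≤ m ≤ v_j . d`. -/
noncomputable def fac {α : Type} [Fintype α] (v : α → κ → ℕ) (d : κ → ℕ) : P.Y.H :=
  ∏ j, ∏ m ∈ range (dot (v j) d), (((m : ℂ) + 1) • (1 : P.Y.H) + P.cl (v j))

/-- The `I`-function `t^(c_1) ∑_d t^(i . d) ∏_j ∏_(m ≤ L_j(d)) (m + L_j) /
∏_i ∏_(m ≤ D_i(d)) (m + D_i)`, `c_1 = ∑_k i_k h_k`, `d ∈ ℕ^κ`. -/
noncomputable def Ifun (t : ℝ) : P.Y.H := clPow (P.cl (ind P.w P.a)) t *
  ∑' d : κ → ℕ, ((t : ℂ) ^ dot (ind P.w P.a) d) • (P.fac P.a d * Ring.inverse (P.fac P.w d))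

/-- `ch(TY) = ∑_i e^(D_i) - ∑_j e^(L_j)` up to a constant. -/
def ChEq : Prop := ∀ m, 1 ≤ m → P.Y.ch m = ∑ i, ((m.factorial : ℂ)⁻¹) • P.cl (P.w i) ^ m
  - ∑ j, ((m.factorial : ℂ)⁻¹) • P.cl (P.a j) ^ m

/-- Quantum Lefschetz: `e^(g t) J_Y(t)` is the `I`-function. -/
def Lefschetz : Prop := ∃ g : ℂ, ∀ t : ℝ, 0 < t → Complex.exp (g * t) • P.Y.Jfun t = P.Ifun t

end HData

/-- A Fano manifold of hypergeometric type. `Y` is a smooth complete intersection of nef Cartier
divisors with classes `L_j` in the smooth locus of a projective toric orbifold whose toric divisors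
have classes `D_i`; on `Y` all of these are combinations of the `h_k` with coefficients in `ℕ`, and
the curve classes `d_k = h_k . C` lie in `ℕ^κ`. -/
structure HyperCI (ι J κ : Type) [Fintype ι] [Fintype J] [Fintype κ] extends HData ι J κ where
  eps_h : ∀ k, Y.eps (h k) = 0
  w_ne : ∀ i, ∃ k, 1 ≤ w i k
  a_ne : ∀ j, ∃ k, 1 ≤ a j k
  /-- `Y` is Fano -/
  index_pos : ∀ k, ∑ j, a j k < ∑ i, w i k
  matched : Matched w a
  /-- Euler sequence and normal bundle sequence -/
  ch_eq : toHData.ChEq
  /-- Theorem (mirror theorem and quantum Lefschetz for convex line bundles: Givental, Kim, Lee,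
  Coates-Givental; for weighted projective spaces and toric orbifolds Przyjalkowski,
  Coates-Corti-Lee-Tseng, Coates-Corti-Iritani-Tseng; the twisted sectors vanish on `Y`). For an
  `m`-fold cyclic cover of `∏ P^(n_k)` branched along a divisor of class `m a`, let `k_0` be the
  index with minimal `(n_k + 1 - (m - 1) a_k) / a_k`; use the bundle over `∏_(k ≠ k_0) P^(n_k)` with
  fibre `P(1^(n_(k_0) + 1), a_(k_0))`, a toric orbifold which contains `Y` in its smooth locus as a
  divisor of class `m D`, `D = ∑ a_k h_k`; the terms with `d_(k_0) < 0` are zero on `Y`. -/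
  lefschetz : toHData.Lefschetz

end Pool.Agent.H71.GC
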