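import Pool.Agent.H71.GC.LimA
import Pool.Agent.H75.GC.Main

/-!
# The Gamma class of a Fano manifold of hypergeometric type
-/

namespace Pool.Agent.H71.GC

open Filter Topology Finset NormedSpace Pool.Agent.H75.GC

section Fano

variable (Y : Fano)

/-- From a limit of multiples of the `J`-function to the statements (as for helper75's
`Intersection.conclude`). -/
theorem conclude {ν : ℝ → ℂ} (h : Tendsto (fun t => ν t • Y.Jfun t) atTop (𝓝 Y.gammaClass)) :
    Tendsto (fun t => (Y.G t)⁻¹ • Y.Jfun t) atTop (𝓝 Y.gammaClass) ∧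
      ∀ u : ℂ, Y.SimpleRightmost u → Y.PrincipalIsGamma u := by
  have hcont : Continuous Y.eps := Y.eps.toLinearMap.continuous_of_finiteDimensional
  have h1 : Tendsto (fun t => ν t * Y.G t) atTop (𝓝 1) := by
    have h2 := (hcont.tendsto _).comp h
    rw [Y.eps_gamma] at h2
    refine h2.congr fun t => ?_
    simp only [Function.comp_apply]
    rw [map_smul, smul_eq_mul]
    rfl
  constructor
  · have h3 := (h1.inv₀ one_ne_zero).smul h
    rw [inv_one, one_smul] at h3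
    refine h3.congr' ?_
    have h4 : ∀ᶠ t in atTop, ν t * Y.G t ≠ 0 := h1.eventually_ne one_ne_zero
    filter_upwards [h4] with t ht
    rw [smul_smul]
    congr 1
    have h5 : ν t ≠ 0 := left_ne_zero_of_mul ht
    rw [mul_inv, mul_comm, ← mul_assoc, mul_inv_cancel₀ h5, one_mul]
  · intro u hu
    obtain ⟨A, hA, h5, h6⟩ := Y.asymp u hu
    set p : ℝ → ℂ := fun t => ((t ^ ((Y.dim : ℝ) / 2) : ℝ) : ℂ) * Complex.exp (-(u * t)) with hp
    have h7 : Tendsto (fun t => p t • Y.Jfun t) atTop (𝓝 A) := h6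
    have h8 : Tendsto (fun t => p t * Y.G t) atTop (𝓝 (Y.eps A)) := by
      have h2 := (hcont.tendsto _).comp h7
      refine h2.congr fun t => ?_
      simp only [Function.comp_apply]
      rw [map_smul, smul_eq_mul]
      rfl
    have h9 : Tendsto (fun t => p t • Y.Jfun t) atTop (𝓝 (Y.eps A • Y.gammaClass)) := by
      have h10 := ((h8.mul (h1.inv₀ one_ne_zero)).smul h)
      rw [inv_one, mul_one] at h10
      refine h10.congr' ?_
      have h4 : ∀ᶠ t in atTop, ν t * Y.G t ≠ 0 := h1.eventually_ne one_ne_zero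
      filter_upwards [h4] with t ht
      rw [smul_smul]
      congr 1
      have h11 : ν t ≠ 0 := left_ne_zero_of_mul ht
      have h12 : Y.G t ≠ 0 := right_ne_zero_of_mul ht
      field_simp
    have h13 : A = Y.eps A • Y.gammaClass := tendsto_nhds_unique h7 h9
    have h14 : Y.eps A ≠ 0 := by
      intro h0
      rw [h0, zero_smul] at h13
      exact hA h13
    have h15 : Submodule.span ℂ {A} = Submodule.span ℂ {Y.gammaClass} := by
      rw [h13]
      exact Submodule.span_singleton_smul_eq (IsUnit.mk0 _ h14) _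
    intro α
    rw [← h15]
    exact h5 α

end Fano

namespace HyperCI

variable {ι J κ : Type} [Fintype ι] [Fintype J] [Fintype κ] (P : HyperCI ι J κ)

theorem cs (l : ℝ) (x : P.Y.H) : ((l : ℝ) : ℂ) • x = l • x := Complex.coe_smul l x

theorem cl_eq (v : κ → ℕ) : P.cl v = cls P.h v := by
  unfold HData.cl cls
  refine sum_congr rfl fun k _ => ?_
  rw [← P.cs]
  push_cast
  rfl

theorem eps_cl (v : κ → ℕ) : P.Y.eps (P.cl v) = 0 := by
  unfold HData.cl
  rw [map_sum]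
  exact sum_eq_zero fun k _ => by rw [map_smul, P.eps_h, smul_zero]

theorem cls_nil (v : κ → ℕ) : cls P.h v ^ (P.Y.dim + 1) = 0 := by
  rw [← P.cl_eq]
  exact P.Y.nilp _ (P.eps_cl v)

theorem fac_eq {α : Type} [Fintype α] (v : α → κ → ℕ) (d : κ → ℕ) :
    P.fac v d = num v P.h d := by
  unfold HData.fac num
  refine prod_congr rfl fun j _ => prod_congr rfl fun m _ => ?_
  rw [P.cl_eq, ← P.cs]
  push_cast
  rfl

theorem Ifun_eq (t : ℝ) : P.Ifun t = exp (Real.log t • cls P.h (ind P.w P.a)) *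
    ∑' d, t ^ dot (ind P.w P.a) d • (num P.a P.h d * Ring.inverse (num P.w P.h d)) := by
  unfold HData.Ifun clPow
  rw [P.cs, P.cl_eq]
  congr 1
  refine tsum_congr fun d => ?_
  rw [P.fac_eq, P.fac_eq, ← P.cs]
  push_cast
  rfl

/-- The exponent of `Γ(1 + x)`. -/
noncomputable def ge (N : ℕ) (x : P.Y.H) : P.Y.H := -(Real.eulerMascheroniConstant • x)
    + ∑ k ∈ Icc 2 N, ((-1 : ℝ) ^ k * zetaR k / (k : ℝ)) • x ^ k

theorem ch_real {m : ℕ} (hm : 1 ≤ m) : P.Y.ch m
    = ∑ i, ((m.factorial : ℝ)⁻¹) • cls P.h (P.w i) ^ m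
      - ∑ j, ((m.factorial : ℝ)⁻¹) • cls P.h (P.a j) ^ m := by
  rw [P.ch_eq m hm]
  congr 1
  · refine sum_congr rfl fun j _ => ?_
    rw [← P.cs, P.cl_eq]
    push_cast
    rfl
  · refine sum_congr rfl fun j _ => ?_
    rw [← P.cs, P.cl_eq]
    push_cast
    rfl

/-- The Gamma class of `Y`. -/
theorem gamma_eq : P.Y.gammaClass
    = exp (∑ i, P.ge P.Y.dim (cls P.h (P.w i)) - ∑ j, P.ge P.Y.dim (cls P.h (P.a j))) := by
  rw [P.Y.gammaClass_eq le_rfl]
  congr 1
  have h3 : ∀ m ∈ Icc 2 P.Y.dim, ((-1 : ℝ) ^ m * ((m - 1).factorial : ℝ) * zetaR m) • P.Y.ch m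
      = ∑ i, ((-1 : ℝ) ^ m * zetaR m / (m : ℝ)) • cls P.h (P.w i) ^ m
        - ∑ j, ((-1 : ℝ) ^ m * zetaR m / (m : ℝ)) • cls P.h (P.a j) ^ m := by
    intro m hm
    rw [mem_Icc] at hm
    rw [P.ch_real (by omega), smul_sub, smul_sum, smul_sum]
    obtain ⟨i, rfl⟩ : ∃ i, m = i + 1 := ⟨m - 1, by omega⟩
    have h4 : (-1 : ℝ) ^ (i + 1) * ((i + 1 - 1).factorial : ℝ) * zetaR (i + 1)
        * (((i + 1).factorial : ℝ)⁻¹) = (-1 : ℝ) ^ (i + 1) * zetaR (i + 1) / ((i + 1 : ℕ) : ℝ) := by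
      rw [Nat.factorial_succ, Nat.add_sub_cancel]
      have : ((i.factorial : ℕ) : ℝ) ≠ 0 := by positivity
      push_cast
      field_simp
    simp only [smul_smul, h4]
  rw [sum_congr rfl h3, P.ch_real le_rfl]
  unfold ge
  simp only [sum_sub_distrib, sum_add_distrib, sum_neg_distrib, smul_sub, smul_sum,
    Nat.factorial_one, Nat.cast_one, inv_one, pow_one, one_smul]
  rw [sum_comm (s := Icc 2 P.Y.dim), sum_comm (s := Icc 2 P.Y.dim)]
  abel

theorem gfac_mul : P.Y.gammaClass * gfac P.w P.a P.h P.Y.dim = 1 := by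
  unfold gfac
  have h1 : ∏ j, gam P.Y.dim (cls P.h (P.a j)) = exp (∑ j, P.ge P.Y.dim (cls P.h (P.a j))) := by
    rw [← eprod]
    rfl
  have h2 : ∏ i, Ring.inverse (gam P.Y.dim (cls P.h (P.w i)))
      = exp (∑ i, -(P.ge P.Y.dim (cls P.h (P.w i)))) := by
    rw [← eprod]
    exact prod_congr rfl fun i _ => inv_eexp _
  rw [h1, h2, P.gamma_eq, ← eadd, ← eadd, sum_neg_distrib]
  have h3 : ∑ i, P.ge P.Y.dim (cls P.h (P.w i)) - ∑ j, P.ge P.Y.dim (cls P.h (P.a j))
      + (∑ j, P.ge P.Y.dim (cls P.h (P.a j)) + -∑ i, P.ge P.Y.dim (cls P.h (P.w i))) = 0 := by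
    abel
  rw [h3, exp_zero]

/-- THE LIMIT. -/
theorem main_limit : ∃ ν : ℝ → ℂ, Tendsto (fun t => ν t • P.Y.Jfun t) atTop
    (𝓝 P.Y.gammaClass) := by
  classical
  obtain ⟨g, hg⟩ := P.lefschetz
  have hi : ∀ k, 1 ≤ ind P.w P.a k := fun k => by
    have := P.index_pos k
    unfold ind
    omega
  have hlim := lim_alg (w := P.w) (a := P.a) (h := P.h) (N := P.Y.dim) P.cls_nil
    (fun k => P.Y.nilp _ (P.eps_h k)) P.matched hi P.w_ne P.a_ne
  have h2 := hlim.const_mul P.Y.gammaClass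
  rw [mul_one] at h2
  refine ⟨fun t => (((∑' d, wt P.w P.a t d)⁻¹ : ℝ) : ℂ) * Complex.exp (g * t), ?_⟩
  refine h2.congr' ?_
  filter_upwards [eventually_gt_atTop (0 : ℝ)] with t ht
  have h3 := hg t ht
  rw [← P.Ifun_eq, ← h3, ← P.cs, mul_smul_comm, ← mul_assoc, P.gfac_mul, one_mul, smul_smul]

end HyperCI

end Pool.Agent.H71.GC
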