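import Pool.Agent.H71.GC.Defs

/-!
# The Laurent polynomial of a nef partition
-/

namespace Pool.Agent.H71.GC

open Finset Pool.Agent.H75.GC

/-- Laurent polynomials with natural coefficients. -/
abbrev Lau (n : ℕ) : Type := AddMonoidAlgebra ℕ (Fin n → ℤ)

/-- The monomial `x^v`. -/
noncomputable def xm {n : ℕ} (v : Fin n → ℤ) : Lau n := AddMonoidAlgebra.single v 1

/-- The constant term. -/
noncomputable def ct {n : ℕ} : Lau n →+ ℕ where
  toFun h := h.coeff 0
  map_zero' := rfl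
  map_add' _ _ := rfl

theorem xm_prod {n : ℕ} {ι : Type} (s : Finset ι) (v : ι → Fin n → ℤ) (d : ι → ℕ) :
    ∏ i ∈ s, xm (v i) ^ d i = xm (∑ i ∈ s, d i • v i) := by
  unfold xm
  simp only [AddMonoidAlgebra.single_pow, one_pow]
  rw [AddMonoidAlgebra.prod_single]
  simp

theorem ct_xm {n : ℕ} (v : Fin n → ℤ) : ct (xm v) = if v = 0 then 1 else 0 := by
  show (AddMonoidAlgebra.single v 1 : Lau n).coeff 0 = _
  rw [AddMonoidAlgebra.coeff_single, Finsupp.single_apply]

theorem ct_nat_mul {n : ℕ} (c : ℕ) (h : Lau n) : ct ((c : Lau n) * h) = c * ct h := by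
  rw [← nsmul_eq_mul, map_nsmul, smul_eq_mul]

theorem mon_zero {n : ℕ} (x : Fin n → ℝ) : mon x 0 = 1 := by simp [mon]

theorem mon_add {n : ℕ} {x : Fin n → ℝ} (hx : ∀ a, 0 < x a) (v w : Fin n → ℤ) :
    mon x (v + w) = mon x v * mon x w := by
  unfold mon
  rw [← prod_mul_distrib]
  exact prod_congr rfl fun a _ => zpow_add₀ (hx a).ne' _ _

theorem mon_pos {n : ℕ} {x : Fin n → ℝ} (hx : ∀ a, 0 < x a) (v : Fin n → ℤ) : 0 < mon x v :=
  prod_pos fun a _ => zpow_pos (hx a) _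

/-- Evaluation at a point with positive coordinates. -/
noncomputable def ev {n : ℕ} (x : Fin n → ℝ) (hx : ∀ a, 0 < x a) : Lau n →+* ℝ :=
  (AddMonoidAlgebra.lift ℕ ℝ (Fin n → ℤ)
    { toFun := fun v => mon x v.toAdd
      map_one' := mon_zero x
      map_mul' := fun v w => mon_add hx v.toAdd w.toAdd }).toRingHom

theorem ev_single {n : ℕ} {x : Fin n → ℝ} (hx : ∀ a, 0 < x a) (v : Fin n → ℤ) (r : ℕ) :
    ev x hx (AddMonoidAlgebra.single v r) = r * mon x v := by
  show AddMonoidAlgebra.lift ℕ ℝ (Fin n → ℤ) _ _ = _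
  rw [AddMonoidAlgebra.lift_single]
  simp

theorem ev_xm {n : ℕ} {x : Fin n → ℝ} (hx : ∀ a, 0 < x a) (v : Fin n → ℤ) :
    ev x hx (xm v) = mon x v := by
  unfold xm
  rw [ev_single]
  simp

theorem ev_nonneg {n : ℕ} {x : Fin n → ℝ} (hx : ∀ a, 0 < x a) (h : Lau n) : 0 ≤ ev x hx h := by
  induction h using AddMonoidAlgebra.induction_linear with
  | zero => rw [map_zero]
  | add f g hf hg => rw [map_add]; exact add_nonneg hf hg
  | single v r =>
    rw [ev_single]
    exact mul_nonneg (Nat.cast_nonneg _) (mon_pos hx v).le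

theorem split (n : ℕ) (h : Lau n) : h = AddMonoidAlgebra.erase 0 h + (ct h : Lau n) := by
  conv_lhs => rw [← AddMonoidAlgebra.erase_add_single 0 h]
  rfl

theorem ct_le {n : ℕ} {x : Fin n → ℝ} (hx : ∀ a, 0 < x a) (h : Lau n) :
    (ct h : ℝ) ≤ ev x hx h := by
  conv_rhs => rw [split n h]
  rw [map_add, map_natCast]
  have := ev_nonneg hx (AddMonoidAlgebra.erase 0 h)
  linarith

/-- Binomial expansion of the constant terms. -/
theorem ct_pow_add {n : ℕ} (g : Lau n) (c m : ℕ) :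
    ct ((g + (c : Lau n)) ^ m)
      = ∑ l ∈ range (m + 1), m.choose l * (c ^ (m - l) * ct (g ^ l)) := by
  rw [add_pow, map_sum]
  refine sum_congr rfl fun l _ => ?_
  have : g ^ l * (c : Lau n) ^ (m - l) * (m.choose l : Lau n)
      = ((m.choose l * c ^ (m - l) : ℕ) : Lau n) * g ^ l := by
    push_cast
    ring
  rw [this, ct_nat_mul]
  ring

namespace NefPartition

variable (D : NefPartition)

/-- STEP 1: all rays outside of `E_0` lie in one cone. -/
theorem exists_cone : ∃ σ ∈ D.cones, ∀ i, D.part i ≠ 0 → i ∈ σ := by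
  obtain ⟨σ, hσ, a, ha, hv⟩ := D.complete (∑ i ∈ univ.filter (fun i => D.part i ≠ 0), D.b i)
  obtain ⟨m, h1, h2⟩ := D.ample σ hσ
  simp only [FanData.deg] at h1 h2
  refine ⟨σ, hσ, ?_⟩
  have hnn : ∀ i, D.part i ≠ 0 → 0 ≤ m ⬝ᵥ D.b i := by
    intro i hi
    by_cases hs : i ∈ σ
    · rw [h1 i hs, if_neg hi, neg_zero]
    · have := h2 i hs
      rw [if_neg hi, neg_zero] at this
      exact this.le
  have hle : m ⬝ᵥ (∑ i ∈ univ.filter (fun i => D.part i ≠ 0), D.b i) ≤ 0 := by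
    rw [← hv, dotProduct_sum]
    refine sum_nonpos fun i _ => ?_
    rw [dotProduct_smul]
    by_cases hs : i ∈ σ
    · rw [h1 i hs]
      split_ifs
      · rw [nsmul_eq_mul]
        have : (0 : ℤ) ≤ (a i : ℤ) := Int.natCast_nonneg _
        linarith
      · simp
    · rw [ha i hs, zero_smul]
  intro i hi
  by_contra hs
  have hpos : 0 < m ⬝ᵥ D.b i := by
    have := h2 i hs
    rwa [if_neg hi, neg_zero] at this
  rw [dotProduct_sum] at hle
  have : 0 < ∑ i ∈ univ.filter (fun i => D.part i ≠ 0), m ⬝ᵥ D.b i :=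
    sum_pos' (fun i hi => hnn i (mem_filter.1 hi).2)
      ⟨i, mem_filter.2 ⟨mem_univ i, hi⟩, hpos⟩
  linarith

/-- The linear functions of `L_1, .., L_k` on this cone. -/
theorem exists_lin : ∃ v : Fin (D.k + 1) → Fin D.n → ℤ, ∀ j, j ≠ 0 →
    (∀ i, D.part i ≠ 0 → v j ⬝ᵥ D.b i = - (if D.part i = j then 1 else 0)) ∧
      ∀ i, D.part i = 0 → 0 ≤ v j ⬝ᵥ D.b i := by
  obtain ⟨σ, hσ, hs⟩ := D.exists_cone
  have : ∀ j : Fin (D.k + 1), ∃ v : Fin D.n → ℤ, j ≠ 0 →
      (∀ i, D.part i ≠ 0 → v ⬝ᵥ D.b i = - (if D.part i = j then 1 else 0)) ∧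
        ∀ i, D.part i = 0 → 0 ≤ v ⬝ᵥ D.b i := by
    intro j
    by_cases hj : j = 0
    · exact ⟨0, fun h => absurd hj h⟩
    · obtain ⟨m, h1, h2⟩ := D.nef j hj σ hσ
      simp only [FanData.deg] at h1 h2
      refine ⟨m, fun _ => ⟨fun i hi => h1 i (hs i hi), fun i hi => ?_⟩⟩
      have := h2 i
      rwa [if_neg (by rw [hi]; exact Ne.symm hj), neg_zero] at this
  choose v hv using this
  exact ⟨v, hv⟩

/-- the linear functions -/
noncomputable def lin : Fin (D.k + 1) → Fin D.n → ℤ := D.exists_lin.choose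

theorem lin_spec (j) (hj : j ≠ 0) :
    (∀ i, D.part i ≠ 0 → D.lin j ⬝ᵥ D.b i = - (if D.part i = j then 1 else 0)) ∧
      ∀ i, D.part i = 0 → 0 ≤ D.lin j ⬝ᵥ D.b i := D.exists_lin.choose_spec j hj

/-- the exponents -/
noncomputable def ex (i : D.I) (j : Fin (D.k + 1)) : ℕ := (D.lin j ⬝ᵥ D.b i).toNat

theorem ex_eq (i : D.I) (j : Fin (D.k + 1)) (hi : D.part i = 0) (hj : j ≠ 0) :
    (D.ex i j : ℤ) = D.lin j ⬝ᵥ D.b i := Int.toNat_of_nonneg ((D.lin_spec j hj).2 i hi)

/-- The Laurent polynomial `f = ∑_{E_0} x^(b_i) ∏_j F_j^(v_j . b_i)`. -/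
noncomputable def f : Lau D.n :=
  ∑ i ∈ pt D.part 0, xm (D.b i) *
    ∏ j ∈ univ.erase 0, (∑ i' ∈ pt D.part j, xm (D.b i')) ^ D.ex i j

/-- On `C_+` it is the potential. -/
theorem ev_f {x : Fin D.n → ℝ} (hx : ∀ a, 0 < x a) (hF : ∀ j, j ≠ 0 → D.F j x = 1) :
    ev x hx D.f = D.W x := by
  unfold f FanData.W FanData.F
  rw [map_sum]
  refine sum_congr rfl fun i _ => ?_
  rw [map_mul, ev_xm, map_prod, prod_eq_one, mul_one]
  intro j hj
  rw [map_pow, map_sum]
  have h1 : ∑ i' ∈ pt D.part j, ev x hx (xm (D.b i')) = D.F j x :=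
    sum_congr rfl fun i' _ => ev_xm _ _
  rw [h1, hF j (ne_of_mem_erase hj), one_pow]

/-- The degrees `L_j . d` in terms of the part of `d` on `E_0`. -/
noncomputable def dg (d : D.I → ℕ) (j : Fin (D.k + 1)) : ℕ := ∑ i ∈ pt D.part 0, D.ex i j * d i

theorem dg_eq (d : D.I → ℕ) (hd : ∑ i, d i • D.b i = 0) (j : Fin (D.k + 1)) (hj : j ≠ 0) :
    ∑ i ∈ pt D.part j, d i = D.dg d j := by
  have h0 : D.lin j ⬝ᵥ (∑ i, d i • D.b i) = 0 := by rw [hd, dotProduct_zero]
  rw [dotProduct_sum] at h0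
  have h1 : ∀ i, D.lin j ⬝ᵥ (d i • D.b i)
      = (if D.part i = 0 then (D.ex i j * d i : ℤ) else 0)
        - (if D.part i = j then (d i : ℤ) else 0) := by
    intro i
    rw [dotProduct_smul, nsmul_eq_mul]
    by_cases hi : D.part i = 0
    · rw [if_pos hi, if_neg (by rw [hi]; exact Ne.symm hj), D.ex_eq i j hi hj]
      ring
    · rw [if_neg hi, (D.lin_spec j hj).1 i hi]
      split_ifs <;> simp
  rw [sum_congr rfl fun i _ => h1 i, sum_sub_distrib, ← sum_filter, ← sum_filter, sub_eq_zero] at h0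
  unfold dg pt
  have : ((∑ i ∈ univ.filter (fun i => D.part i = j), d i : ℕ) : ℤ)
      = ((∑ i ∈ univ.filter (fun i => D.part i = 0), D.ex i j * d i : ℕ) : ℤ) := by
    push_cast
    exact h0.symm
  exact_mod_cast this

/-- The summand of `b_m`. -/
def mult (d : D.I → ℕ) : ℕ := ∏ j, Nat.multinomial (pt D.part j) d

/-- The finite index set. -/
noncomputable def idx (m : ℕ) : Finset (Sigma fun _ : D.I → ℕ => D.I → ℕ) :=
  (piAntidiag (pt D.part 0) m).sigma fun k => Dset D.part (univ.erase 0) (D.dg k)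

theorem mem_idx {m : ℕ} {p : Sigma fun _ : D.I → ℕ => D.I → ℕ} : p ∈ D.idx m ↔
    (∑ i ∈ pt D.part 0, p.1 i = m ∧ ∀ i, D.part i ≠ 0 → p.1 i = 0) ∧
      (∀ i, D.part i = 0 → p.2 i = 0) ∧
        ∀ j, j ≠ 0 → ∑ i ∈ pt D.part j, p.2 i = D.dg p.1 j := by
  unfold idx
  rw [mem_sigma, mem_piAntidiag, mem_Dset]
  constructor
  · rintro ⟨⟨h1, h2⟩, h3, h4⟩
    refine ⟨⟨h1, fun i hi => ?_⟩, fun i hi => h3 i (by simp [hi]), fun j hj => h4 j (by simp [hj])⟩
    by_contra h
    exact hi (mem_pt.1 (h2 i h))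
  · rintro ⟨⟨h1, h2⟩, h3, h4⟩
    refine ⟨⟨h1, fun i hi => ?_⟩, fun i hi => h3 i (by simpa using hi),
      fun j hj => h4 j (ne_of_mem_erase hj)⟩
    rw [mem_pt]
    by_contra h
    exact hi (h2 i h)

theorem f_pow (m : ℕ) : D.f ^ m = ∑ p ∈ D.idx m,
    (D.mult (p.1 + p.2) : Lau D.n) * xm (∑ i, (p.1 + p.2) i • D.b i) := by
  unfold f
  rw [sum_pow_eq_sum_piAntidiag]
  unfold idx
  rw [sum_sigma]
  refine sum_congr rfl fun k hk => ?_
  have hk0 : ∀ i, D.part i ≠ 0 → k i = 0 := fun i hi => by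
    rw [mem_piAntidiag] at hk
    by_contra h
    exact hi (mem_pt.1 (hk.2 i h))
  have h1 : ∏ i ∈ pt D.part 0, (xm (D.b i) *
      ∏ j ∈ univ.erase 0, (∑ i' ∈ pt D.part j, xm (D.b i')) ^ D.ex i j) ^ k i
      = (∏ i, xm (D.b i) ^ k i) * ∏ j ∈ univ.erase 0,
          (∑ i' ∈ pt D.part j, xm (D.b i')) ^ D.dg k j := by
    simp only [mul_pow]
    rw [prod_mul_distrib, prod_pt hk0]
    congr 1
    simp only [← Finset.prod_pow, ← pow_mul]
    rw [prod_comm]
    exact prod_congr rfl fun j _ => prod_pow_eq_pow_sum _ _ _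
  rw [h1, prod_parts, mul_sum, mul_sum]
  refine sum_congr rfl fun e he => ?_
  rw [mem_Dset] at he
  have he0 : ∀ i, D.part i = 0 → e i = 0 := fun i hi => he.1 i (by simp [hi])
  have m1 : Nat.multinomial (pt D.part 0) (k + e) = Nat.multinomial (pt D.part 0) k :=
    Nat.multinomial_congr fun i hi => by
      show k i + e i = k i
      rw [he0 i (mem_pt.1 hi), add_zero]
  have m2 : ∏ j ∈ univ.erase 0, (Nat.multinomial (pt D.part j) (k + e) : Lau D.n)
      = ∏ j ∈ univ.erase 0, (Nat.multinomial (pt D.part j) e : Lau D.n) := by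
    refine prod_congr rfl fun j hj => ?_
    congr 1
    refine Nat.multinomial_congr fun i hi => ?_
    show k i + e i = e i
    rw [hk0 i ?_, zero_add]
    rw [mem_pt.1 hi]
    exact ne_of_mem_erase hj
  unfold mult
  rw [← xm_prod]
  push_cast
  rw [← mul_prod_erase univ _ (mem_univ (0 : Fin (D.k + 1))), m1, m2]
  simp only [Pi.add_apply, pow_add, prod_mul_distrib]
  ring

theorem pair_inj {m : ℕ} {p q : Sigma fun _ : D.I → ℕ => D.I → ℕ} (hp : p ∈ D.idx m)
    (hq : q ∈ D.idx m) (h : p.1 + p.2 = q.1 + q.2) : p = q := by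
  rw [mem_idx] at hp hq
  obtain ⟨k, e⟩ := p
  obtain ⟨k', e'⟩ := q
  obtain ⟨⟨-, hk⟩, he, -⟩ := hp
  obtain ⟨⟨-, hk'⟩, he', -⟩ := hq
  dsimp only at hk hk' he he' h
  have h1 : k = k' := by
    funext i
    have := congrFun h i
    simp only [Pi.add_apply] at this
    by_cases hi : D.part i = 0
    · rw [he i hi, he' i hi] at this
      omega
    · rw [hk i hi, hk' i hi]
  subst h1
  have h2 : e = e' := add_left_cancel h
  subst h2
  rfl

/-- STEP 2: the constant terms of the powers of `f`. -/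
theorem ct_f_pow (m : ℕ) : ct (D.f ^ m) = D.coef m := by
  classical
  have h1 : ct (D.f ^ m) = ∑ p ∈ D.idx m,
      if ∑ i, (p.1 + p.2) i • D.b i = 0 then D.mult (p.1 + p.2) else 0 := by
    rw [f_pow, map_sum]
    refine sum_congr rfl fun p _ => ?_
    rw [ct_nat_mul, ct_xm]
    split_ifs <;> simp
  have h2 : ∑ p ∈ D.idx m,
      (if ∑ i, (p.1 + p.2) i • D.b i = 0 then D.mult (p.1 + p.2) else 0)
      = ∑ d ∈ (D.idx m).image (fun p => p.1 + p.2),
          if ∑ i, d i • D.b i = 0 then D.mult d else 0 :=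
    (sum_image (f := fun d : D.I → ℕ => if ∑ i, d i • D.b i = 0 then D.mult d else 0)
      (g := fun p : Sigma fun _ : D.I → ℕ => D.I → ℕ => p.1 + p.2)
      fun p hp q hq h => D.pair_inj hp hq h).symm
  rw [h1, h2, ← sum_filter]
  unfold FanData.coef
  have h3 : D.rel m = (((D.idx m).image (fun p => p.1 + p.2)).filter
      (fun d => ∑ i, d i • D.b i = 0) : Finset (D.I → ℕ)) := by
    ext d
    rw [mem_coe, mem_filter, mem_image]
    constructor
    · rintro ⟨hd, hm⟩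
      refine ⟨⟨⟨fun i => if D.part i = 0 then d i else 0,
        fun i => if D.part i = 0 then 0 else d i⟩, ?_, ?_⟩, hd⟩
      · rw [mem_idx]
        dsimp only
        refine ⟨⟨?_, fun i hi => if_neg hi⟩, fun i hi => if_pos hi, fun j hj => ?_⟩
        · rw [← hm]
          exact sum_congr rfl fun i hi => if_pos (mem_pt.1 hi)
        · have := D.dg_eq d hd j hj
          rw [sum_congr rfl fun i hi => if_neg (by rw [mem_pt.1 hi]; exact hj), this]
          unfold dg
          refine sum_congr rfl fun i hi => ?_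
          show D.ex i j * d i = D.ex i j * (if D.part i = 0 then d i else 0)
          rw [if_pos (mem_pt.1 hi)]
      · funext i
        simp only [Pi.add_apply]
        split_ifs <;> simp
    · rintro ⟨⟨p, hp, rfl⟩, hd⟩
      refine ⟨hd, ?_⟩
      rw [mem_idx] at hp
      rw [← hp.1.1]
      refine sum_congr rfl fun i hi => ?_
      simp only [Pi.add_apply]
      rw [hp.2.1 i (mem_pt.1 hi), add_zero]
  rw [h3, finsum_mem_coe_finset]
  rfl

end NefPartition

end Pool.Agent.H71.GC
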