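import Pool.Agent.H71.GC.Gfac

/-!
# The limit of a hypergeometric series with values in an algebra
-/

namespace Pool.Agent.H71.GC

open Filter Topology Finset NormedSpace Pool.Agent.H75.GC

variable {A : Type} [NormedCommRing A] [NormedAlgebra ℝ A] [CompleteSpace A]
variable {ι J κ : Type} [Fintype ι] [Fintype J] [Fintype κ] [DecidableEq κ]

omit [CompleteSpace A] [DecidableEq κ] in
/-- The class `∑_k v_k h_k`. -/
noncomputable def cls (h : κ → A) (v : κ → ℕ) : A := ∑ k, (v k : ℝ) • h k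

/-- The Gamma factor `∏ Γ(1 + L_j) / ∏ Γ(1 + D_i)`. -/
noncomputable def gfac (w : ι → κ → ℕ) (a : J → κ → ℕ) (h : κ → A) (N : ℕ) : A :=
  (∏ j, gam N (cls h (a j))) * ∏ i, Ring.inverse (gam N (cls h (w i)))

/-- `∏_j ∏_{m ≤ L_j(d)} (m + L_j)`. -/
noncomputable def num (v : J → κ → ℕ) (h : κ → A) (d : κ → ℕ) : A :=
  ∏ j, ∏ m ∈ range (dot (v j) d), (((m : ℝ) + 1) • (1 : A) + cls h (v j))

/-- The factors of a term. -/
noncomputable def fc (w : ι → κ → ℕ) (a : J → κ → ℕ) (h : κ → A) (N : ℕ) (t : ℝ) (d : κ → ℕ) :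
    κ ⊕ (J ⊕ ι) → A :=
  Sum.elim (fun k => exp (Ak w a t k d • h k)) (Sum.elim
    (fun j => rr N (cls h (a j)) (dot (a j) d))
    (fun i => Ring.inverse (rr N (cls h (w i)) (dot (w i) d))))

omit [CompleteSpace A] [DecidableEq κ] in
theorem num_eq (v : J → κ → ℕ) (h : κ → A) (d : κ → ℕ) : num v h d
    = (∏ j, ((dot (v j) d).factorial : ℝ)) • ∏ j, pf (cls h (v j)) (dot (v j) d) := by
  unfold num
  rw [← prod_smul]
  exact prod_congr rfl fun j _ => fac_pf _ _

omit [DecidableEq κ] in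
theorem inv_num_eq (v : J → κ → ℕ) {h : κ → A} {N : ℕ} (hn : ∀ v, cls h v ^ (N + 1) = 0)
    (d : κ → ℕ) : Ring.inverse (num v h d)
    = (∏ j, ((dot (v j) d).factorial : ℝ))⁻¹ • ∏ j, Ring.inverse (pf (cls h (v j)) (dot (v j) d)) := by
  have h1 : (∏ j, ((dot (v j) d).factorial : ℝ)) ≠ 0 :=
    prod_ne_zero_iff.2 fun _ _ => by exact_mod_cast Nat.factorial_ne_zero _
  have h2 : IsUnit (∏ j, pf (cls h (v j)) (dot (v j) d)) := by
    rw [IsUnit.prod_iff]
    exact fun j _ => pf_unit (hn _) _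
  rw [num_eq, inverse_smul h1 h2, inverse_prod]

omit [CompleteSpace A] [DecidableEq κ] in
theorem sum_Ak (w : ι → κ → ℕ) (a : J → κ → ℕ) (h : κ → A) (t : ℝ) (d : κ → ℕ) :
    ∑ k, Ak w a t k d • h k = Real.log t • cls h (ind w a)
      + ((∑ j, Real.log (dot (a j) d) • cls h (a j))
        + ∑ i, -(Real.log (dot (w i) d) • cls h (w i))) := by
  have h1 : ∀ k, Ak w a t k d • h k = Real.log t • ((ind w a k : ℝ) • h k)
      + ((∑ j, Real.log (dot (a j) d) • ((a j k : ℝ) • h k))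
        + ∑ i, -(Real.log (dot (w i) d) • ((w i k : ℝ) • h k))) := by
    intro k
    simp only [Ak, smul_smul, ← neg_smul]
    rw [← sum_smul, ← sum_smul, ← add_smul, ← add_smul]
    congr 1
    rw [sub_eq_add_neg, ← sum_neg_distrib, add_assoc, mul_comm (ind w a k : ℝ)]
    congr 2
    · exact sum_congr rfl fun j _ => mul_comm _ _
    · exact sum_congr rfl fun j _ => by ring
  rw [sum_congr rfl fun k _ => h1 k, sum_add_distrib, sum_add_distrib]
  unfold cls
  simp only [smul_sum, sum_neg_distrib]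
  congr 2
  · exact sum_comm
  · congr 1
    exact sum_comm

omit [DecidableEq κ] in
/-- The terms of the series. -/
theorem term_eq' (w : ι → κ → ℕ) (a : J → κ → ℕ) {h : κ → A} {N : ℕ}
    (hn : ∀ v, cls h v ^ (N + 1) = 0) {t : ℝ} (d : κ → ℕ) :
    (gfac w a h N * exp (Real.log t • cls h (ind w a)))
      * (t ^ dot (ind w a) d • (num a h d * Ring.inverse (num w h d)))
      = wt w a t d • ∏ α, fc w a h N t d α := by
  rw [inv_num_eq w hn, num_eq a]
  have h1 : ∏ α, fc w a h N t d α = (∏ k, exp (Ak w a t k d • h k))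
      * ((∏ j, rr N (cls h (a j)) (dot (a j) d))
        * ∏ i, Ring.inverse (rr N (cls h (w i)) (dot (w i) d))) := by
    unfold fc
    rw [Fintype.prod_sum_type, Fintype.prod_sum_type]
    rfl
  have h2 : (∏ j, gam N (cls h (a j))) * ∏ j, pf (cls h (a j)) (dot (a j) d)
      = (∏ j, exp (Real.log (dot (a j) d) • cls h (a j)))
        * ∏ j, rr N (cls h (a j)) (dot (a j) d) := by
    rw [← prod_mul_distrib, ← prod_mul_distrib]
    exact prod_congr rfl fun j _ => gam_pf _
  have h3 : (∏ i, Ring.inverse (gam N (cls h (w i))))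
      * ∏ i, Ring.inverse (pf (cls h (w i)) (dot (w i) d))
      = (∏ i, exp (-(Real.log (dot (w i) d) • cls h (w i))))
        * ∏ i, Ring.inverse (rr N (cls h (w i)) (dot (w i) d)) := by
    rw [← prod_mul_distrib, ← prod_mul_distrib]
    exact prod_congr rfl fun i _ => gam_pf_inv _
  have h4 : ∏ k, exp (Ak w a t k d • h k) = exp (Real.log t • cls h (ind w a))
      * ((∏ j, exp (Real.log (dot (a j) d) • cls h (a j)))
        * ∏ i, exp (-(Real.log (dot (w i) d) • cls h (w i)))) := by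
    rw [eprod, sum_Ak, eadd, eadd, eprod, eprod]
  rw [h1, h4]
  unfold gfac wt
  generalize exp (Real.log t • cls h (ind w a)) = E at *
  generalize (∏ j, gam N (cls h (a j))) = g1 at *
  generalize (∏ i, Ring.inverse (gam N (cls h (w i)))) = g2 at *
  generalize (∏ j, pf (cls h (a j)) (dot (a j) d)) = p1 at *
  generalize (∏ i, Ring.inverse (pf (cls h (w i)) (dot (w i) d))) = p2 at *
  generalize (∏ j, exp (Real.log (dot (a j) d) • cls h (a j))) = e1 at *
  generalize (∏ i, exp (-(Real.log (dot (w i) d) • cls h (w i)))) = e2 at *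
  generalize (∏ j, rr N (cls h (a j)) (dot (a j) d)) = r1 at *
  generalize (∏ i, Ring.inverse (rr N (cls h (w i)) (dot (w i) d))) = r2 at *
  generalize (∏ j, ((dot (a j) d).factorial : ℝ)) = f1 at *
  generalize (∏ i, ((dot (w i) d).factorial : ℝ)) = f2 at *
  generalize t ^ dot (ind w a) d = T at *
  have h5 : g1 * g2 * E * (T • (f1 • p1 * f2⁻¹ • p2))
      = (T * f1 / f2) • ((g1 * p1) * (g2 * p2) * E) := by
    rw [smul_mul_smul_comm, smul_smul, mul_smul_comm, div_eq_mul_inv, mul_assoc T f1]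
    congr 1
    ring
  rw [h5, h2, h3]
  congr 1
  ring

theorem log_small {x δ : ℝ} (hx : 0 < x) (hδ : δ ≤ 1 / 2) (h : |x - 1| ≤ δ) :
    |Real.log x| ≤ 2 * δ := by
  obtain ⟨h1, h2⟩ := abs_le.1 h
  rw [abs_le]
  constructor
  · have h3 := Real.log_le_sub_one_of_pos (inv_pos.2 hx)
    rw [Real.log_inv] at h3
    have h4 : x⁻¹ ≤ 1 + 2 * δ := by
      rw [inv_le_iff_one_le_mul₀ hx]
      nlinarith
    linarith
  · have h3 := Real.log_le_sub_one_of_pos hx
    linarith

section Main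

variable {w : ι → κ → ℕ} {a : J → κ → ℕ} {h : κ → A} {N : ℕ}

theorem Phi_bound (hn : ∀ v, cls h v ^ (N + 1) = 0) (hh : ∀ k, h k ^ (N + 1) = 0) {c : ℝ}
    (hyp : ∀ t, 1 ≤ t → Hyp (cst w) c (wt w a t)) : ∃ (K : ℝ) (q : ℕ), 0 ≤ K ∧
      ∀ t, 1 ≤ t → ∀ d, ‖∏ α, fc w a h N t d α - 1‖ ≤ K * env (wt w a t) d ^ q := by
  choose C hC0 hC using fun k => norm_exp_smul_le (hh k) (zero_lt_one' ℝ)
  choose B1 hB1 hB1' using fun j : J => bdd_of_lim (rr_lim (hn (a j)))
  choose B2 hB2 hB2' using fun i : ι => bdd_of_lim (rr_inv_lim (hn (w i)))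
  set e0 : ℝ := Real.exp (cst' w a) with he0
  have he00 : 0 ≤ e0 := (Real.exp_pos _).le
  have hB1n : 0 ≤ ∏ j, B1 j := prod_nonneg fun j _ => zero_le_one.trans (hB1 j)
  have hB2n : 0 ≤ ∏ i, B2 i := prod_nonneg fun i _ => zero_le_one.trans (hB2 i)
  have hCn : 0 ≤ ∏ k, (C k * e0) := prod_nonneg fun k _ => mul_nonneg (hC0 k) he00
  refine ⟨‖(1 : A)‖ * ((∏ k, (C k * e0)) * ((∏ j, B1 j) * ∏ i, B2 i)) + ‖(1 : A)‖,
    Fintype.card κ, by positivity, fun t ht d => ?_⟩
  have ht0 : 0 < t := by linarith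
  have hy := hyp t ht
  have henv := one_le_env hy d
  have henv0 : 0 ≤ env (wt w a t) d := by linarith
  have h1 : ∀ k, ‖exp (Ak w a t k d • h k)‖ ≤ C k * e0 * env (wt w a t) d := by
    intro k
    refine (hC k _).trans ?_
    rw [one_mul, mul_assoc]
    refine mul_le_mul_of_nonneg_left ?_ (hC0 k)
    have hr := hy.rho_pos k d
    have h2 := Ak_close w a ht0 k d
    have h3 : cst' w a / max (d k : ℝ) 1 ≤ cst' w a :=
      div_le_self (cst'_nonneg w a) (le_max_right _ _)
    have h4 : |Ak w a t k d| ≤ cst' w a + |Real.log (rho (wt w a t) k d)| := by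
      have h5 := abs_add_le (Ak w a t k d - Real.log (rho (wt w a t) k d))
        (Real.log (rho (wt w a t) k d))
      rw [sub_add_cancel] at h5
      linarith
    refine (Real.exp_le_exp.2 h4).trans ?_
    rw [Real.exp_add]
    refine mul_le_mul_of_nonneg_left ?_ he00
    rcases abs_cases (Real.log (rho (wt w a t) k d)) with ⟨h6, -⟩ | ⟨h6, -⟩
    · rw [h6, Real.exp_log hr]
      exact rho_le_env hy k d
    · rw [h6, Real.exp_neg, Real.exp_log hr]
      exact inv_le_env hy k d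
  have h2 : ‖∏ α, fc w a h N t d α‖ ≤ ‖(1 : A)‖ * ((∏ k, (C k * e0)) * ((∏ j, B1 j)
      * ∏ i, B2 i)) * env (wt w a t) d ^ Fintype.card κ := by
    refine (norm_prod_le_one _ _).trans ?_
    rw [mul_assoc]
    refine mul_le_mul_of_nonneg_left ?_ (norm_nonneg _)
    rw [Fintype.prod_sum_type, Fintype.prod_sum_type]
    have h3 : ∏ k, ‖fc w a h N t d (Sum.inl k)‖
        ≤ (∏ k, (C k * e0)) * env (wt w a t) d ^ Fintype.card κ := by
      have h4 : ∏ k, (C k * e0 * env (wt w a t) d)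
          = (∏ k, (C k * e0)) * env (wt w a t) d ^ Fintype.card κ := by
        rw [prod_mul_distrib, prod_const, card_univ]
      rw [← h4]
      exact prod_le_prod (fun _ _ => norm_nonneg _) fun k _ => h1 k
    have h5 : (∏ j, ‖fc w a h N t d (Sum.inr (Sum.inl j))‖)
        * ∏ i, ‖fc w a h N t d (Sum.inr (Sum.inr i))‖ ≤ (∏ j, B1 j) * ∏ i, B2 i :=
      mul_le_mul (prod_le_prod (fun _ _ => norm_nonneg _) fun j _ => hB1' j _)
        (prod_le_prod (fun _ _ => norm_nonneg _) fun i _ => hB2' i _)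
        (prod_nonneg fun _ _ => norm_nonneg _) hB1n
    refine (mul_le_mul h3 h5 (mul_nonneg (prod_nonneg fun _ _ => norm_nonneg _)
      (prod_nonneg fun _ _ => norm_nonneg _)) (by positivity)).trans (le_of_eq ?_)
    ring
  have h6 : ‖(1 : A)‖ ≤ ‖(1 : A)‖ * env (wt w a t) d ^ Fintype.card κ :=
    le_mul_of_one_le_right (norm_nonneg _) (one_le_pow₀ henv)
  refine (norm_sub_le _ _).trans ((add_le_add h2 h6).trans (le_of_eq ?_))
  ring

theorem Phi_small (hn : ∀ v, cls h v ^ (N + 1) = 0) {c : ℝ}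
    (hyp : ∀ t, 1 ≤ t → Hyp (cst w) c (wt w a t)) (hw : ∀ i, ∃ k, 1 ≤ w i k)
    (ha : ∀ j, ∃ k, 1 ≤ a j k) : ∀ ε > 0, ∃ δ > 0, ∃ R : ℕ, ∀ t, 1 ≤ t → ∀ d,
      (∀ k, |rho (wt w a t) k d - 1| ≤ δ) → (∀ k, R < d k) →
        ‖∏ α, fc w a h N t d α - 1‖ ≤ ε := by
  intro ε hε
  obtain ⟨η, hη, hprod⟩ := prod_close (A := A) (α := κ ⊕ (J ⊕ ι)) hε
  have c1 : ∀ᶠ l : ℝ in 𝓝 0, ∀ k, ‖exp (l • h k) - 1‖ < η := by
    rw [eventually_all]
    intro k
    have h1 : Tendsto (fun l : ℝ => exp (l • h k)) (𝓝 0) (𝓝 1) := by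
      have h2 : Continuous fun l : ℝ => exp (l • h k) :=
        econt.comp (continuous_id.smul continuous_const)
      have h3 := h2.tendsto 0
      rwa [zero_smul, exp_zero] at h3
    have h4 := (h1.sub_const 1).norm
    rw [sub_self, norm_zero] at h4
    exact h4.eventually_lt_const hη
  obtain ⟨δ0, hδ0, c1⟩ := Metric.eventually_nhds_iff.1 c1
  have c2 : ∀ᶠ n : ℕ in atTop, ∀ j : J, ‖rr N (cls h (a j)) n - 1‖ < η := by
    rw [eventually_all]
    intro j
    have h4 := ((rr_lim (hn (a j))).sub_const 1).norm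
    rw [sub_self, norm_zero] at h4
    exact h4.eventually_lt_const hη
  have c3 : ∀ᶠ n : ℕ in atTop, ∀ i : ι, ‖Ring.inverse (rr N (cls h (w i)) n) - 1‖ < η := by
    rw [eventually_all]
    intro j
    have h4 := ((rr_inv_lim (hn (w j))).sub_const 1).norm
    rw [sub_self, norm_zero] at h4
    exact h4.eventually_lt_const hη
  obtain ⟨R0, hR0⟩ := eventually_atTop.1 (c2.and c3)
  obtain ⟨R1, hR1⟩ := exists_nat_gt (cst' w a / (δ0 / 4))
  refine ⟨min (1 / 2) (δ0 / 4), by positivity, max R0 R1, fun t ht d hd1 hd2 => ?_⟩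
  have ht0 : 0 < t := by linarith
  have hy := hyp t ht
  refine hprod _ fun α => ?_
  rcases α with k | j | i
  · show ‖exp (Ak w a t k d • h k) - 1‖ ≤ η
    refine (c1 ?_ k).le
    rw [Real.dist_eq, sub_zero]
    have h1 := log_small (hy.rho_pos k d) (min_le_left _ _) (hd1 k)
    have h2 : min (1 / 2) (δ0 / 4) ≤ δ0 / 4 := min_le_right _ _
    have h3 := Ak_close w a ht0 k d
    have h4 : cst' w a / max (d k : ℝ) 1 < δ0 / 4 := by
      have h5 : (R1 : ℝ) ≤ max (d k : ℝ) 1 := by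
        refine le_trans ?_ (le_max_left _ _)
        exact_mod_cast ((le_max_right R0 R1).trans (hd2 k).le)
      rw [div_lt_iff₀ (by positivity)]
      rw [div_lt_iff₀ (by positivity)] at hR1
      nlinarith
    have h5 := abs_add_le (Ak w a t k d - Real.log (rho (wt w a t) k d))
      (Real.log (rho (wt w a t) k d))
    rw [sub_add_cancel] at h5
    linarith
  · show ‖rr N (cls h (a j)) (dot (a j) d) - 1‖ ≤ η
    obtain ⟨k, hk⟩ := ha j
    have h1 := le_dot (a j) k d hk
    have h2 := hd2 k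
    exact ((hR0 (dot (a j) d) (by have := le_max_left R0 R1; omega)).1 j).le
  · show ‖Ring.inverse (rr N (cls h (w i)) (dot (w i) d)) - 1‖ ≤ η
    obtain ⟨k, hk⟩ := hw i
    have h1 := le_dot (w i) k d hk
    have h2 := hd2 k
    exact ((hR0 (dot (w i) d) (by have := le_max_left R0 R1; omega)).2 i).le

/-- THE LIMIT. -/
theorem lim_alg (hn : ∀ v, cls h v ^ (N + 1) = 0) (hh : ∀ k, h k ^ (N + 1) = 0)
    (hM : Matched w a) (hi : ∀ k, 1 ≤ ind w a k) (hw : ∀ i, ∃ k, 1 ≤ w i k)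
    (ha : ∀ j, ∃ k, 1 ≤ a j k) :
    Tendsto (fun t : ℝ => (∑' d, wt w a t d)⁻¹ • (gfac w a h N
      * (exp (Real.log t • cls h (ind w a)) *
        ∑' d, t ^ dot (ind w a) d • (num a h d * Ring.inverse (num w h d))))) atTop (𝓝 1) := by
  obtain ⟨c, hc, hyp⟩ := hyp_wt hM hi
  obtain ⟨hs, hev⟩ := conc (cst_nonneg w) hc (wt w a) hyp (base_wt hM hi)
    (fun t d => ‖∏ α, fc w a h N t d α - 1‖) (fun _ _ _ => norm_nonneg _)
    (Phi_bound hn hh hyp) (Phi_small hn hyp hw ha)
  rw [Metric.tendsto_atTop']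
  intro ε hε
  obtain ⟨T, hT⟩ := eventually_atTop.1 ((hev (ε / 2) (by positivity)).and (eventually_ge_atTop 1))
  refine ⟨T, fun t htT => ?_⟩
  obtain ⟨h1, ht1⟩ := hT t htT.le
  have ht0 : 0 < t := by linarith
  have hy := hyp t ht1
  have hS := hy.sum_pos
  -- the unit
  set V : A := gfac w a h N * exp (Real.log t • cls h (ind w a)) with hV
  have hVu : IsUnit V := by
    rw [hV]
    unfold gfac
    refine (IsUnit.mul ?_ ?_).mul (isUnit_eexp _)
    · rw [IsUnit.prod_iff]
      exact fun j _ => isUnit_eexp _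
    · rw [IsUnit.prod_iff]
      intro i _
      unfold gam
      rw [inv_eexp]
      exact isUnit_eexp _
  have hterm := fun d => term_eq' w a hn (t := t) d
  rw [← hV] at hterm
  -- summability
  have s1 : Summable fun d => wt w a t d • (∏ α, fc w a h N t d α - 1) := by
    refine Summable.of_norm ((hs t ht1).congr fun d => ?_)
    rw [norm_smul, Real.norm_of_nonneg (hy.pos d).le]
  have s2 : Summable fun d => wt w a t d • (1 : A) := hy.summable.smul_const 1
  have s3 : Summable fun d => wt w a t d • ∏ α, fc w a h N t d α := by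
    refine (s1.add s2).congr fun d => ?_
    rw [← smul_add, sub_add_cancel]
  have s4 : Summable fun d => t ^ dot (ind w a) d • (num a h d * Ring.inverse (num w h d)) := by
    obtain ⟨V', hV'⟩ := hVu
    refine (s3.mul_left ((V'⁻¹ : Aˣ) : A)).congr fun d => ?_
    rw [← hterm d, ← hV', Units.inv_mul_cancel_left]
  have h2 : gfac w a h N * (exp (Real.log t • cls h (ind w a)) *
      ∑' d, t ^ dot (ind w a) d • (num a h d * Ring.inverse (num w h d)))
      = ∑' d, wt w a t d • ∏ α, fc w a h N t d α := by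
    rw [← mul_assoc, ← hV, ← s4.tsum_mul_left]
    exact tsum_congr hterm
  have h3 : ∑' d, wt w a t d • ∏ α, fc w a h N t d α
      = ∑' d, wt w a t d • (∏ α, fc w a h N t d α - 1) + (∑' d, wt w a t d) • (1 : A) := by
    rw [← hy.summable.tsum_smul_const, ← s1.tsum_add s2]
    refine tsum_congr fun d => ?_
    rw [← smul_add, sub_add_cancel]
  rw [h2, h3, dist_eq_norm, smul_add, smul_smul, inv_mul_cancel₀ hS.ne', one_smul,
    add_sub_cancel_right, norm_smul, Real.norm_of_nonneg (inv_nonneg.2 hS.le)]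
  have h4 : ‖∑' d, wt w a t d • (∏ α, fc w a h N t d α - 1)‖
      ≤ ∑' d, wt w a t d * ‖∏ α, fc w a h N t d α - 1‖ := by
    refine (norm_tsum_le_tsum_norm ((hs t ht1).congr fun d => ?_)).trans (le_of_eq ?_)
    · rw [norm_smul, Real.norm_of_nonneg (hy.pos d).le]
    · refine tsum_congr fun d => ?_
      rw [norm_smul, Real.norm_of_nonneg (hy.pos d).le]
  rw [inv_mul_lt_iff₀ hS]
  have h5 : ε / 2 * ∑' d, wt w a t d < (∑' d, wt w a t d) * ε := by nlinarith
  linarith

end Main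

end Pool.Agent.H71.GC
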