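import Pool.Agent.H71.GC.Laurent

/-!
# Q1 for complete intersections of nef partitions
-/

namespace Pool.Agent.H71.GC

open Finset MeasureTheory Filter Pool.Agent.H75.GC

namespace ToricCI

variable (P : ToricCI)

/-- `g = f - c`, with natural coefficients. -/
noncomputable def g : Lau P.D.n := AddMonoidAlgebra.erase 0 P.D.f

theorem f_eq : P.D.f = P.g + (P.D.coef 1 : Lau P.D.n) := by
  have h := split P.D.n P.D.f
  rw [← pow_one P.D.f, P.D.ct_f_pow 1, pow_one] at h
  exact h

theorem coef_eq (m : ℕ) : P.D.coef m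
    = ∑ l ∈ range (m + 1), m.choose l * (P.D.coef 1 ^ (m - l) * ct (P.g ^ l)) := by
  rw [← P.D.ct_f_pow m, f_eq, ct_pow_add]

/-- STEP 3: the coefficients of the quantum period. -/
theorem eps_J (m : ℕ) : P.Y.eps (P.Y.J m) = (ct (P.g ^ m) : ℂ) / (m.factorial : ℂ) := by
  induction m using Nat.strong_induction_on with
  | _ m ih =>
    have h1 := P.period m
    have h2 : (P.D.coef m : ℂ) / (m.factorial : ℂ) = ∑ l ∈ range (m + 1),
        ((P.D.coef 1 : ℂ) ^ (m - l) / ((m - l).factorial : ℂ))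
          * ((ct (P.g ^ l) : ℂ) / (l.factorial : ℂ)) := by
      rw [P.coef_eq m]
      push_cast
      rw [sum_div]
      refine sum_congr rfl fun l hl => ?_
      have hl' : l ≤ m := Nat.lt_succ_iff.1 (mem_range.1 hl)
      have h3 := Nat.choose_mul_factorial_mul_factorial hl'
      have h4 : ((m.choose l : ℂ)) * (l.factorial : ℂ) * ((m - l).factorial : ℂ)
          = (m.factorial : ℂ) := by exact_mod_cast h3
      have n1 : (l.factorial : ℂ) ≠ 0 := by exact_mod_cast l.factorial_ne_zero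
      have n2 : ((m - l).factorial : ℂ) ≠ 0 := by exact_mod_cast (m - l).factorial_ne_zero
      have n3 : (m.factorial : ℂ) ≠ 0 := by exact_mod_cast m.factorial_ne_zero
      rw [div_mul_div_comm, div_eq_div_iff n3 (mul_ne_zero n2 n1), ← h4]
      ring
    rw [h2, sum_range_succ, sum_range_succ] at h1
    have h5 : ∑ l ∈ range m, ((P.D.coef 1 : ℂ) ^ (m - l) / ((m - l).factorial : ℂ))
        * P.Y.eps (P.Y.J l) = ∑ l ∈ range m,
        ((P.D.coef 1 : ℂ) ^ (m - l) / ((m - l).factorial : ℂ))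
          * ((ct (P.g ^ l) : ℂ) / (l.factorial : ℂ)) :=
      sum_congr rfl fun l hl => by rw [ih l (mem_range.1 hl)]
    rw [h5] at h1
    have h6 := add_left_cancel h1
    simpa using h6

/-- On the positive cycle the potential is at least `c + T_A`. -/
theorem TAcon_le {x : Fin P.D.n → ℝ} (hx : x ∈ P.D.Cplus) :
    P.Y.TAcon ≤ P.D.W x - P.D.coef 1 := by
  have hev : ev x hx.1 P.g = P.D.W x - P.D.coef 1 := by
    have h := P.D.ev_f hx.1 hx.2
    rw [P.f_eq, map_add, map_natCast] at h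
    linarith
  have h0 : 0 ≤ P.D.W x - P.D.coef 1 := by
    rw [← hev]
    exact ev_nonneg hx.1 _
  have hb : ∀ n : ℕ, ‖(n.factorial : ℂ) * P.Y.eps (P.Y.J n)‖ ≤ (P.D.W x - P.D.coef 1) ^ n := by
    intro n
    have n1 : (n.factorial : ℂ) ≠ 0 := by exact_mod_cast n.factorial_ne_zero
    rw [P.eps_J, mul_div_cancel₀ _ n1, Complex.norm_natCast, ← hev, ← map_pow]
    exact ct_le hx.1 _
  unfold QData.TAcon
  refine limsup_le_of_le ?_ ?_
  · refine IsCoboundedUnder.of_frequently_ge (a := 0) (Eventually.frequently (Eventually.of_forall fun n => ?_))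
    exact Real.rpow_nonneg (norm_nonneg _) _
  · filter_upwards [eventually_ge_atTop 1] with n hn
    have hn0 : (n : ℝ) ≠ 0 := by positivity
    calc ‖(n.factorial : ℂ) * P.Y.eps (P.Y.J n)‖ ^ (1 / (n : ℝ))
        ≤ ((P.D.W x - P.D.coef 1) ^ n) ^ (1 / (n : ℝ)) :=
          Real.rpow_le_rpow (norm_nonneg _) (hb n) (by positivity)
      _ = P.D.W x - P.D.coef 1 := by
          rw [one_div, Real.pow_rpow_inv_natCast h0 (by omega)]

theorem measurable_mon {n : ℕ} (v : Fin n → ℤ) : Measurable fun x : Fin n → ℝ => mon x v := by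
  unfold mon
  exact Finset.measurable_prod _ fun a _ => (measurable_pi_apply a).pow_const (v a)

theorem measurableSet_Cplus (D : NefPartition) : MeasurableSet D.Cplus := by
  have : D.Cplus = (⋂ a, {x : Fin D.n → ℝ | 0 < x a}) ∩
      ⋂ j : Fin (D.k + 1), ⋂ _ : j ≠ 0, {x : Fin D.n → ℝ | D.F j x = 1} := by
    ext x
    simp [FanData.Cplus]
  rw [this]
  refine (MeasurableSet.iInter fun a => measurableSet_lt measurable_const
    (measurable_pi_apply a)).inter
    (MeasurableSet.iInter fun j => MeasurableSet.iInter fun _ => ?_)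
  have hF : Measurable fun x : Fin D.n → ℝ => D.F j x := by
    unfold FanData.F
    exact Finset.measurable_sum _ fun i _ => measurable_mon _
  exact hF (measurableSet_singleton 1)

/-- STEP 4: the Gamma class is principal at `T_A`. -/
theorem principal : P.Y.Principal (P.Y.TAcon : ℂ) P.Y.gammaClass := by
  obtain ⟨ω, N, e, v, h, hint, hs⟩ := P.mirror
  set T := P.Y.TAcon with hT
  set c : ℝ := (P.D.coef 1 : ℝ) with hc
  obtain ⟨M, hM⟩ : ∃ M : ℕ, ∀ i, -(M : ℝ) ≤ e i := by
    obtain ⟨M, hM⟩ := exists_nat_ge (∑ i, |e i|)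
    refine ⟨M, fun i => ?_⟩
    have h1 : |e i| ≤ ∑ i, |e i| :=
      single_le_sum (f := fun i => |e i|) (fun _ _ => abs_nonneg _) (mem_univ i)
    have h2 := neg_abs_le (e i)
    linarith
  have hC := measurableSet_Cplus P.D
  have hI : ∀ (z : ℝ) (w : Fin P.D.n → ℤ), 0 < z →
      IntegrableOn (fun x => mon x w * Real.exp (-(P.D.W x - c) / z)) P.D.Cplus ω := by
    intro z w hz
    have h1 := (hint z w hz).const_mul (Real.exp (c / z))
    refine h1.congr (Eventually.of_forall fun x => ?_)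
    show Real.exp (c / z) * (mon x w * Real.exp (-(P.D.W x) / z))
      = mon x w * Real.exp (-(P.D.W x - c) / z)
    have : -(P.D.W x - c) / z = c / z + -(P.D.W x) / z := by ring
    rw [this, Real.exp_add]
    ring
  have hpos : ∀ (z : ℝ) (w : Fin P.D.n → ℤ),
      0 ≤ ∫ x in P.D.Cplus, mon x w * Real.exp (-(P.D.W x - c) / z) ∂ω := fun z w =>
    setIntegral_nonneg hC fun x hx => mul_nonneg (mon_pos hx.1 w).le (Real.exp_pos _).le
  have key : ∀ (z : ℝ) (w : Fin P.D.n → ℤ), 0 < z → z ≤ 1 →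
      Real.exp (T / z) * ∫ x in P.D.Cplus, mon x w * Real.exp (-(P.D.W x - c) / z) ∂ω
        ≤ ∫ x in P.D.Cplus, Real.exp T * (mon x w * Real.exp (-(P.D.W x - c) / 1)) ∂ω := by
    intro z w hz hz1
    rw [← integral_const_mul]
    refine setIntegral_mono_on ((hI z w hz).const_mul _) ((hI 1 w one_pos).const_mul _) hC ?_
    intro x hx
    have hle : 0 ≤ P.D.W x - c - T := by
      have := P.TAcon_le hx
      linarith
    have e1 : Real.exp (T / z) * (mon x w * Real.exp (-(P.D.W x - c) / z))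
        = mon x w * Real.exp (-((P.D.W x - c - T) / z)) := by
      have : -((P.D.W x - c - T) / z) = T / z + -(P.D.W x - c) / z := by ring
      rw [this, Real.exp_add]
      ring
    have e2 : Real.exp T * (mon x w * Real.exp (-(P.D.W x - c) / 1))
        = mon x w * Real.exp (-(P.D.W x - c - T)) := by
      have : -(P.D.W x - c - T) = T + -(P.D.W x - c) / 1 := by ring
      rw [this, Real.exp_add]
      ring
    rw [e1, e2]
    refine mul_le_mul_of_nonneg_left (Real.exp_le_exp.2 (neg_le_neg ?_)) (mon_pos hx.1 w).le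
    rw [le_div_iff₀ hz]
    nlinarith
  refine ⟨M, ∑ i, (∫ x in P.D.Cplus,
    Real.exp T * (mon x (v i) * Real.exp (-(P.D.W x - c) / 1)) ∂ω) * ‖h i‖, ?_⟩
  intro z hz hz1
  rw [hs z hz, smul_sum, sum_mul]
  unfold FanData.osc
  refine (norm_sum_le _ _).trans (sum_le_sum fun i _ => ?_)
  have n1 : ‖Complex.exp ((T : ℂ) / z)‖ = Real.exp (T / z) := by
    rw [Complex.norm_exp]
    congr 1
    rw [← Complex.ofReal_div, Complex.ofReal_re]
  rw [norm_smul, norm_smul, n1, Complex.norm_real, norm_mul,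
    Real.norm_of_nonneg (hpos z (v i)), Real.norm_of_nonneg (Real.rpow_nonneg hz.le _)]
  have k1 := key z (v i) hz hz1
  have k2 : z ^ e i ≤ (z⁻¹) ^ M := by
    refine (Real.rpow_le_rpow_of_exponent_ge hz hz1 (hM i)).trans (le_of_eq ?_)
    rw [Real.rpow_neg hz.le, Real.rpow_natCast, inv_pow]
  have k3 : 0 ≤ Real.exp (T / z)
      * ∫ x in P.D.Cplus, mon x (v i) * Real.exp (-(P.D.W x - c) / z) ∂ω :=
    mul_nonneg (Real.exp_pos _).le (hpos z (v i))
  calc Real.exp (T / z) * (z ^ e i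
        * (∫ x in P.D.Cplus, mon x (v i) * Real.exp (-(P.D.W x - c) / z) ∂ω) * ‖h i‖)
      = (z ^ e i) * (Real.exp (T / z)
        * ∫ x in P.D.Cplus, mon x (v i) * Real.exp (-(P.D.W x - c) / z) ∂ω) * ‖h i‖ := by ring
    _ ≤ (z⁻¹) ^ M * (∫ x in P.D.Cplus,
        Real.exp T * (mon x (v i) * Real.exp (-(P.D.W x - c) / 1)) ∂ω) * ‖h i‖ :=
        mul_le_mul_of_nonneg_right (mul_le_mul k2 k1 k3 (by positivity)) (norm_nonneg _)
    _ = _ := by ring

theorem gamma_ne_zero (X : Fano) : X.gammaClass ≠ 0 := by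
  have : Nontrivial X.H := X.eps.toRingHom.domain_nontrivial
  have : CompleteSpace X.H := FiniteDimensional.complete ℂ X.H
  let _ : NormedAlgebra ℚ X.H := NormedAlgebra.restrictScalars ℚ ℂ X.H
  unfold QData.gammaClass
  exact (NormedSpace.isUnit_exp _).ne_zero

/-- THE THEOREM. -/
theorem q1 : P.Y.Q1 := by
  intro hOA α
  obtain ⟨A, hA0, hA, -⟩ := P.Y.asymp (P.Y.TAcon : ℂ) hOA
  have h1 : P.Y.gammaClass ∈ Submodule.span ℂ {A} := (hA _).1 P.principal
  obtain ⟨r, hr⟩ := Submodule.mem_span_singleton.1 h1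
  have hr0 : r ≠ 0 := by
    rintro rfl
    rw [zero_smul] at hr
    exact gamma_ne_zero P.Y hr.symm
  have h2 : Submodule.span ℂ {P.Y.gammaClass} = Submodule.span ℂ {A} := by
    rw [← hr]
    exact Submodule.span_singleton_smul_eq hr0.isUnit A
  rw [h2]
  exact hA α

end ToricCI

end Pool.Agent.H71.GC
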