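import Pool.Agent.H71.GC.Conc2
import Pool.Agent.H71.GC.HDef
import Pool.Agent.H75.GC.Rep

/-!
# The weights of a hypergeometric series

`w : ι → κ → ℕ` are the exponents of the denominator, `a : J → κ → ℕ` those of the numerator.
-/

namespace Pool.Agent.H71.GC

open Filter Topology Finset

variable {ι J κ : Type} [Fintype ι] [Fintype J] [Fintype κ] [DecidableEq κ]

omit [DecidableEq κ] in
theorem dot_single [DecidableEq κ] (v : κ → ℕ) (k : κ) : dot v (Pi.single k 1) = v k := by
  unfold dot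
  rw [sum_eq_single k]
  · simp
  · intro l _ hl
    simp [hl]
  · simp

theorem dot_sh (v : κ → ℕ) (k : κ) (d : κ → ℕ) : dot v (sh k d) = dot v d + v k := by
  unfold sh
  rw [← dot_single v k]
  unfold dot
  rw [← sum_add_distrib]
  exact sum_congr rfl fun l _ => by simp [mul_add]

omit [DecidableEq κ] in
theorem le_dot (v : κ → ℕ) (k : κ) (d : κ → ℕ) (hk : 1 ≤ v k) : d k ≤ dot v d := by
  refine le_trans ?_ (single_le_sum (f := fun k => v k * d k) (fun _ _ => Nat.zero_le _)
    (mem_univ k))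
  exact Nat.le_mul_of_pos_left _ hk

theorem one_le_pr {α : Type*} (s : Finset α) (f : α → ℝ) (h : ∀ i ∈ s, 1 ≤ f i) :
    1 ≤ ∏ i ∈ s, f i :=
  prod_induction f (fun x => 1 ≤ x) (fun _ _ ha hb => one_le_mul_of_one_le_of_one_le ha hb)
    le_rfl h

/-- The weights `u_d = t^(i . d) ∏_j L_j(d)! / ∏_i D_i(d)!`. -/
noncomputable def wt (w : ι → κ → ℕ) (a : J → κ → ℕ) (t : ℝ) (d : κ → ℕ) : ℝ :=
  t ^ dot (ind w a) d * (∏ j, ((dot (a j) d).factorial : ℝ)) / ∏ i, ((dot (w i) d).factorial : ℝ)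

/-- `(n + 1) .. (n + m)`. -/
noncomputable def P (n m : ℕ) : ℝ := ∏ l ∈ range m, ((n : ℝ) + l + 1)

theorem P_pos (n m : ℕ) : 0 < P n m := prod_pos fun _ _ => by positivity

theorem one_le_P (n m : ℕ) : 1 ≤ P n m := by
  unfold P
  refine one_le_pr _ _ fun l _ => ?_
  have : (0 : ℝ) ≤ (n : ℝ) + l := by positivity
  linarith

theorem factorial_add (n m : ℕ) : ((n + m).factorial : ℝ) = n.factorial * P n m := by
  unfold P
  induction m with
  | zero => simp
  | succ m ih =>
    rw [prod_range_succ, ← mul_assoc, ← ih, ← add_assoc, Nat.factorial_succ]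
    push_cast
    ring

theorem P_mono {n n' m m' : ℕ} (hn : n ≤ n') (hm : m ≤ m') : P n m ≤ P n' m' := by
  have h1 : P n m ≤ P n' m := prod_le_prod (fun _ _ => by positivity) fun l _ => by
    have : (n : ℝ) ≤ n' := by exact_mod_cast hn
    linarith
  refine h1.trans ?_
  unfold P
  rw [← prod_range_mul_prod_Ico _ hm]
  have h2 : (1 : ℝ) ≤ ∏ l ∈ Ico m m', ((n' : ℝ) + l + 1) := by
    refine one_le_pr _ _ fun l _ => ?_
    have : (0 : ℝ) ≤ (n' : ℝ) + l := by positivity
    linarith
  exact le_mul_of_one_le_right (P_pos n' m).le h2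

omit [DecidableEq κ] in
theorem wt_pos (w : ι → κ → ℕ) (a : J → κ → ℕ) {t : ℝ} (ht : 0 < t) (d : κ → ℕ) :
    0 < wt w a t d := by
  unfold wt
  have h1 : 0 < ∏ j, ((dot (a j) d).factorial : ℝ) :=
    prod_pos fun _ _ => by exact_mod_cast Nat.factorial_pos _
  have h2 : 0 < ∏ i, ((dot (w i) d).factorial : ℝ) :=
    prod_pos fun _ _ => by exact_mod_cast Nat.factorial_pos _
  positivity

/-- The ratio. -/
theorem rho_wt (w : ι → κ → ℕ) (a : J → κ → ℕ) {t : ℝ} (ht : 0 < t) (k : κ) (d : κ → ℕ) :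
    rho (wt w a t) k d
      = t ^ ind w a k * (∏ j, P (dot (a j) d) (a j k)) / ∏ i, P (dot (w i) d) (w i k) := by
  unfold rho wt
  simp only [dot_sh, factorial_add, prod_mul_distrib, pow_add]
  have h1 : ∏ j, ((dot (a j) d).factorial : ℝ) ≠ 0 :=
    prod_ne_zero_iff.2 fun _ _ => by exact_mod_cast Nat.factorial_ne_zero _
  have h2 : ∏ i, ((dot (w i) d).factorial : ℝ) ≠ 0 :=
    prod_ne_zero_iff.2 fun _ _ => by exact_mod_cast Nat.factorial_ne_zero _
  have h3 : ∏ i, P (dot (w i) d) (w i k) ≠ 0 := prod_ne_zero_iff.2 fun _ _ => (P_pos _ _).ne'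
  field_simp

theorem lin_prod {α : Type*} (s : Finset α) (c : α → ℝ) (hc : ∀ i ∈ s, 0 ≤ c i) {x : ℝ}
    (hx : 0 ≤ x) (hx1 : x ≤ 1) :
    ∏ i ∈ s, (1 + c i * x) ≤ 1 + (∏ i ∈ s, (1 + c i) - 1) * x := by
  classical
  induction s using Finset.induction_on with
  | empty => simp
  | insert i s hi ih =>
    have h1 := ih fun j hj => hc j (mem_insert_of_mem hj)
    have h2 := hc i (mem_insert_self i s)
    rw [prod_insert hi, prod_insert hi]
    set B := ∏ j ∈ s, (1 + c j) with hB
    have hB1 : 1 ≤ B := by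
      rw [hB]
      refine one_le_pr _ _ fun j hj => ?_
      have := hc j (mem_insert_of_mem hj)
      linarith
    have h3 : 0 ≤ 1 + c i * x := by positivity
    calc (1 + c i * x) * ∏ j ∈ s, (1 + c j * x) ≤ (1 + c i * x) * (1 + (B - 1) * x) :=
          mul_le_mul_of_nonneg_left h1 h3
      _ ≤ 1 + ((1 + c i) * B - 1) * x := by
          have h4 : 0 ≤ c i * (B - 1) * x * (1 - x) := by
            have : 0 ≤ B - 1 := by linarith
            have : 0 ≤ 1 - x := by linarith
            positivity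
          nlinarith

/-- The constant of (a). -/
noncomputable def cst (w : ι → κ → ℕ) : ℝ := ∑ k, ∏ i, ∏ _l ∈ range (w i k), (1 + (w i k : ℝ))

/-- (a) -/
theorem ratio_wt (w : ι → κ → ℕ) (a : J → κ → ℕ) {t : ℝ} (ht : 0 < t) (k : κ) (d : κ → ℕ) :
    rho (wt w a t) k d ≤ (1 + cst w / (d k + 1)) * rho (wt w a t) k (sh k d) := by
  rw [rho_wt w a ht, rho_wt w a ht]
  simp only [dot_sh]
  -- the numerators
  have h1 : ∏ j, P (dot (a j) d) (a j k) ≤ ∏ j, P (dot (a j) d + a j k) (a j k) :=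
    prod_le_prod (fun _ _ => (P_pos _ _).le) fun j _ => P_mono (Nat.le_add_right _ _) le_rfl
  -- the denominators
  have h2 : ∏ i, P (dot (w i) d + w i k) (w i k)
      ≤ (1 + cst w / (d k + 1)) * ∏ i, P (dot (w i) d) (w i k) := by
    have hx0 : (0 : ℝ) ≤ 1 / (d k + 1) := by positivity
    have hx1 : (1 : ℝ) / (d k + 1) ≤ 1 := by
      rw [div_le_one (by positivity)]
      have : (0 : ℝ) ≤ d k := Nat.cast_nonneg _
      linarith
    have h3 : ∏ i, P (dot (w i) d + w i k) (w i k)
        ≤ ∏ i, ((∏ _l ∈ range (w i k), (1 + (w i k : ℝ) * (1 / (d k + 1))))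
          * P (dot (w i) d) (w i k)) := by
      refine prod_le_prod (fun _ _ => (P_pos _ _).le) fun i _ => ?_
      unfold P
      rw [← prod_mul_distrib]
      refine prod_le_prod (fun _ _ => by positivity) fun l hl => ?_
      have hw : 1 ≤ w i k := by
        have := mem_range.1 hl
        omega
      have h4 : (d k : ℝ) ≤ dot (w i) d := by exact_mod_cast le_dot (w i) k d hw
      have h5 : (w i k : ℝ) ≤ (w i k : ℝ) * (1 / (d k + 1)) * ((dot (w i) d : ℝ) + l + 1) := by
        rw [mul_assoc]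
        refine le_mul_of_one_le_right (by positivity) ?_
        rw [one_div, inv_mul_eq_div, one_le_div (by positivity)]
        have : (0 : ℝ) ≤ l := Nat.cast_nonneg _
        linarith
      push_cast
      linarith
    refine h3.trans ?_
    rw [prod_mul_distrib]
    refine mul_le_mul_of_nonneg_right ?_ (prod_nonneg fun _ _ => (P_pos _ _).le)
    have h6 : ∏ i, ∏ _l ∈ range (w i k), (1 + (w i k : ℝ) * (1 / (d k + 1)))
        ≤ 1 + (∏ i, ∏ _l ∈ range (w i k), (1 + (w i k : ℝ)) - 1) * (1 / (d k + 1)) := by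
      rw [prod_sigma', prod_sigma']
      exact lin_prod _ (fun x : (Σ _ : ι, ℕ) => (w x.1 k : ℝ)) (fun _ _ => Nat.cast_nonneg _) hx0 hx1
    have h7 : ∏ i, ∏ _l ∈ range (w i k), (1 + (w i k : ℝ)) ≤ cst w := by
      unfold cst
      exact single_le_sum (f := fun k => ∏ i, ∏ _l ∈ range (w i k), (1 + (w i k : ℝ)))
        (fun k _ => prod_nonneg fun _ _ => prod_nonneg fun _ _ => by positivity) (mem_univ k)
    refine h6.trans ?_
    rw [div_eq_mul_one_div (cst w)]
    have h8 := mul_le_mul_of_nonneg_right h7 hx0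
    linarith
  have p1 : 0 < ∏ i, P (dot (w i) d + w i k) (w i k) := prod_pos fun _ _ => P_pos _ _
  have p2 : 0 < ∏ i, P (dot (w i) d) (w i k) := prod_pos fun _ _ => P_pos _ _
  have p3 : 0 < ∏ j, P (dot (a j) d) (a j k) := prod_pos fun _ _ => P_pos _ _
  rw [← mul_div_assoc, div_le_div_iff₀ p2 p1]
  have p4 : 0 ≤ t ^ ind w a k := by positivity
  calc t ^ ind w a k * (∏ j, P (dot (a j) d) (a j k)) * ∏ i, P (dot (w i) d + w i k) (w i k)
      ≤ t ^ ind w a k * (∏ j, P (dot (a j) d + a j k) (a j k))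
        * ((1 + cst w / (d k + 1)) * ∏ i, P (dot (w i) d) (w i k)) :=
        mul_le_mul (mul_le_mul_of_nonneg_left h1 p4) h2 p1.le
          (mul_nonneg p4 (p3.le.trans h1))
    _ = _ := by ring

/-- (b) -/
theorem base_wt {w : ι → κ → ℕ} {a : J → κ → ℕ} (hM : Matched w a) (hi : ∀ k, 1 ≤ ind w a k)
    (R : ℕ) : ∃ b : ℝ, 0 < b ∧ ∀ t, 1 ≤ t → ∀ k d, d k ≤ R → b * t ≤ rho (wt w a t) k d := by
  classical
  obtain ⟨S, f, hf, hS, hS'⟩ := hM
  set B : ℝ := ∏ k, ∏ i, P (w i k * R) (w i k) with hB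
  have hB1 : 1 ≤ B := one_le_pr _ _ fun _ _ => one_le_pr _ _ fun _ _ => one_le_P _ _
  refine ⟨B⁻¹, by positivity, fun t ht k d hd => ?_⟩
  have ht0 : 0 < t := by linarith
  rw [rho_wt w a ht0]
  have p2 : 0 < ∏ i, P (dot (w i) d) (w i k) := prod_pos fun _ _ => P_pos _ _
  -- the denominator
  have h1 : ∏ i, P (dot (w i) d) (w i k) ≤ (∏ j, P (dot (a j) d) (a j k)) * B := by
    rw [← prod_mul_prod_compl S]
    refine mul_le_mul ?_ ?_ (prod_nonneg fun _ _ => (P_pos _ _).le)
      (prod_nonneg fun _ _ => (P_pos _ _).le)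
    · have h2 : ∏ i ∈ S, P (dot (w i) d) (w i k) ≤ ∏ i : S, P (dot (a (f i)) d) (a (f i) k) := by
        rw [← prod_coe_sort S (fun i => P (dot (w i) d) (w i k))]
        exact prod_le_prod (fun _ _ => (P_pos _ _).le) fun i _ =>
          P_mono (sum_le_sum fun l _ => Nat.mul_le_mul_right _ (hS i l)) (hS i k)
      refine h2.trans ?_
      rw [← prod_image (s := univ) (g := f) (f := fun j => P (dot (a j) d) (a j k)) hf.injOn,
        ← prod_mul_prod_compl (univ.image f)]
      exact le_mul_of_one_le_right (prod_nonneg fun _ _ => (P_pos _ _).le)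
        (one_le_pr _ _ fun _ _ => one_le_P _ _)
    · have h3 : ∏ i ∈ Sᶜ, P (dot (w i) d) (w i k) ≤ ∏ i ∈ Sᶜ, P (w i k * R) (w i k) := by
        refine prod_le_prod (fun _ _ => (P_pos _ _).le) fun i hi => ?_
        rcases Nat.eq_zero_or_pos (w i k) with h0 | h0
        · rw [h0]
          simp [P]
        · refine P_mono ?_ le_rfl
          obtain ⟨k', hk'⟩ := hS' i (by simpa using hi)
          have hkk : k = k' := by
            by_contra hne
            rw [hk' k hne] at h0
            exact lt_irrefl _ h0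
          subst hkk
          unfold dot
          rw [sum_eq_single k (fun l _ hl => by rw [hk' l hl, zero_mul]) (by simp)]
          exact Nat.mul_le_mul_left _ hd
      refine h3.trans ?_
      have h4 : ∏ i ∈ Sᶜ, P (w i k * R) (w i k) ≤ ∏ i, P (w i k * R) (w i k) := by
        rw [← prod_mul_prod_compl S (fun i => P (w i k * R) (w i k))]
        exact le_mul_of_one_le_left (prod_nonneg fun _ _ => (P_pos _ _).le)
          (one_le_pr _ _ fun _ _ => one_le_P _ _)
      refine h4.trans ?_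
      rw [hB, ← mul_prod_erase univ _ (mem_univ k)]
      exact le_mul_of_one_le_right (prod_nonneg fun _ _ => (P_pos _ _).le)
        (one_le_pr _ _ fun _ _ => one_le_pr _ _ fun _ _ => one_le_P _ _)
  have h5 : t ≤ t ^ ind w a k := le_self_pow₀ ht (by have := hi k; omega)
  have p3 : 0 < ∏ j, P (dot (a j) d) (a j k) := prod_pos fun _ _ => P_pos _ _
  have hBp : 0 < B := by linarith
  rw [le_div_iff₀ p2, inv_mul_eq_div, div_mul_eq_mul_div, div_le_iff₀ hBp]
  calc t * ∏ i, P (dot (w i) d) (w i k) ≤ t ^ ind w a k * ((∏ j, P (dot (a j) d) (a j k)) * B) :=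
        mul_le_mul h5 h1 p2.le (by positivity)
    _ = _ := by ring

/-- The multinomial bound. -/
theorem factorial_sum_le {α : Type*} [DecidableEq α] (s : Finset α) (x : α → ℕ) :
    (∑ i ∈ s, x i).factorial ≤ s.card ^ (∑ i ∈ s, x i) * ∏ i ∈ s, (x i).factorial := by
  have h1 := sum_pow_eq_sum_piAntidiag s (fun _ => (1 : ℕ)) (∑ i ∈ s, x i)
  simp only [sum_const, smul_eq_mul, mul_one, one_pow, prod_const_one, Nat.cast_id] at h1
  set x' : α → ℕ := fun i => if i ∈ s then x i else 0 with hx'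
  have hx : ∀ i ∈ s, x' i = x i := fun i hi => if_pos hi
  have h2 : Nat.multinomial s x' ≤ s.card ^ (∑ i ∈ s, x i) := by
    rw [h1]
    refine single_le_sum (f := fun k => Nat.multinomial s k) (fun _ _ => Nat.zero_le _) ?_
    rw [mem_piAntidiag]
    refine ⟨sum_congr rfl hx, fun i hi => ?_⟩
    by_contra hc
    exact hi (if_neg hc)
  rw [Nat.multinomial_congr (g := x) hx] at h2
  rw [← Nat.multinomial_spec, mul_comm]
  exact Nat.mul_le_mul_right _ h2

theorem factorial_mul_le (m n : ℕ) :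
    (m * n).factorial ≤ m ^ (m * n) * n.factorial ^ m := by
  have := factorial_sum_le (range m) (fun _ => n)
  simpa using this

theorem pow_factorial_le (m n : ℕ) : n.factorial ^ m ≤ (m * n).factorial := by
  have h := Nat.le_of_dvd (Nat.factorial_pos _) (Nat.prod_factorial_dvd_factorial_sum (range m)
    (fun _ => n))
  simpa using h

/-- The weights are summable. -/
theorem summable_wt (w : ι → κ → ℕ) (a : J → κ → ℕ) (hi : ∀ k, 1 ≤ ind w a k) {t : ℝ}
    (ht : 0 < t) : Summable (wt w a t) := by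
  set N : ℕ := Fintype.card κ with hN
  -- the numerators
  have h1 : ∀ (j : J) (d : κ → ℕ), ((dot (a j) d).factorial : ℝ)
      ≤ ∏ k, (((N : ℝ) ^ a j k * (a j k : ℝ) ^ a j k) ^ d k * ((d k).factorial : ℝ) ^ a j k) := by
    intro j d
    have h2 := factorial_sum_le univ (fun k => a j k * d k)
    rw [card_univ, ← hN] at h2
    have h3 : ((dot (a j) d).factorial : ℝ) ≤ (N : ℝ) ^ (∑ k, a j k * d k)
        * ∏ k, ((a j k * d k).factorial : ℝ) := by
      unfold dot
      exact_mod_cast h2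
    refine h3.trans ?_
    rw [← prod_pow_eq_pow_sum, ← prod_mul_distrib]
    refine prod_le_prod (fun _ _ => by positivity) fun k _ => ?_
    have h4 : ((a j k * d k).factorial : ℝ) ≤ (a j k : ℝ) ^ (a j k * d k)
        * ((d k).factorial : ℝ) ^ a j k := by
      exact_mod_cast factorial_mul_le (a j k) (d k)
    calc (N : ℝ) ^ (a j k * d k) * ((a j k * d k).factorial : ℝ)
        ≤ (N : ℝ) ^ (a j k * d k) * ((a j k : ℝ) ^ (a j k * d k)
          * ((d k).factorial : ℝ) ^ a j k) := mul_le_mul_of_nonneg_left h4 (by positivity)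
      _ = _ := by rw [mul_pow, ← pow_mul, ← pow_mul]; ring
  -- the denominators
  have h5 : ∀ (i : ι) (d : κ → ℕ), ∏ k, ((d k).factorial : ℝ) ^ w i k
      ≤ ((dot (w i) d).factorial : ℝ) := by
    intro i d
    have h6 : ∏ k, ((d k).factorial : ℝ) ^ w i k ≤ ∏ k, ((w i k * d k).factorial : ℝ) :=
      prod_le_prod (fun _ _ => by positivity) fun k _ => by
        exact_mod_cast pow_factorial_le (w i k) (d k)
    refine h6.trans ?_
    have h7 := Nat.le_of_dvd (Nat.factorial_pos _)
      (Nat.prod_factorial_dvd_factorial_sum univ (fun k => w i k * d k))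
    unfold dot
    exact_mod_cast h7
  set B : κ → ℝ := fun k => t ^ ind w a k * ∏ j, ((N : ℝ) ^ a j k * (a j k : ℝ) ^ a j k) with hB
  have hB0 : ∀ k, 0 ≤ B k := fun k => by positivity
  have h8 := (Pool.Agent.H75.GC.hasSum_pi (R := ℝ) (fun k n => B k ^ n / (n.factorial : ℝ))
    (fun k => by
      refine (Real.summable_pow_div_factorial (B k)).congr fun n => ?_
      rw [Real.norm_of_nonneg]
      have := hB0 k
      positivity)).1
  refine Summable.of_nonneg_of_le (fun d => (wt_pos w a ht d).le) (fun d => ?_) h8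
  rw [Real.norm_of_nonneg (prod_nonneg fun k _ => by have := hB0 k; positivity)]
  -- the comparison
  have h9 : wt w a t d ≤ t ^ dot (ind w a) d * (∏ j, ∏ k, (((N : ℝ) ^ a j k
      * (a j k : ℝ) ^ a j k) ^ d k * ((d k).factorial : ℝ) ^ a j k))
      / ∏ i, ∏ k, ((d k).factorial : ℝ) ^ w i k := by
    unfold wt
    refine div_le_div₀ (by positivity) ?_ (by positivity) ?_
    · exact mul_le_mul_of_nonneg_left (prod_le_prod (fun _ _ => by positivity) fun j _ => h1 j d)
        (by positivity)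
    · exact prod_le_prod (fun _ _ => by positivity) fun i _ => h5 i d
  refine h9.trans ?_
  rw [prod_comm (s := (univ : Finset J)), prod_comm (s := (univ : Finset ι))]
  unfold dot
  rw [← prod_pow_eq_pow_sum, ← prod_mul_distrib, ← prod_div_distrib]
  refine prod_le_prod (fun _ _ => by positivity) fun k _ => ?_
  rw [prod_mul_distrib, prod_pow, prod_pow_eq_pow_sum, prod_pow_eq_pow_sum]
  have h10 : (1 : ℝ) ≤ ((d k).factorial : ℝ) := by exact_mod_cast Nat.factorial_pos (d k)
  have h11 : ((d k).factorial : ℝ) * ((d k).factorial : ℝ) ^ (∑ j, a j k)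
      ≤ ((d k).factorial : ℝ) ^ (∑ i, w i k) := by
    rw [← pow_succ']
    refine pow_le_pow_right₀ h10 ?_
    have := hi k
    unfold ind at this
    omega
  rw [div_le_div_iff₀ (by positivity) (by positivity)]
  have h12 : t ^ (ind w a k * d k) * (∏ j, ((N : ℝ) ^ a j k * (a j k : ℝ) ^ a j k)) ^ d k
      = B k ^ d k := by
    rw [hB]
    simp only
    rw [mul_pow, ← pow_mul]
  calc t ^ (ind w a k * d k) * ((∏ j, ((N : ℝ) ^ a j k * (a j k : ℝ) ^ a j k)) ^ d k
        * ((d k).factorial : ℝ) ^ (∑ j, a j k)) * ((d k).factorial : ℝ)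
      = B k ^ d k * (((d k).factorial : ℝ) * ((d k).factorial : ℝ) ^ (∑ j, a j k)) := by
        rw [← h12]; ring
    _ ≤ B k ^ d k * ((d k).factorial : ℝ) ^ (∑ i, w i k) :=
        mul_le_mul_of_nonneg_left h11 (pow_nonneg (hB0 k) _)

/-- The hypotheses of the concentration theorem. -/
theorem hyp_wt {w : ι → κ → ℕ} {a : J → κ → ℕ} (hM : Matched w a) (hi : ∀ k, 1 ≤ ind w a k) :
    ∃ c : ℝ, 0 < c ∧ ∀ t, 1 ≤ t → Hyp (cst w) c (wt w a t) := by
  obtain ⟨b, hb, h⟩ := base_wt hM hi 0
  refine ⟨b, hb, fun t ht => ?_⟩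
  have ht0 : 0 < t := by linarith
  refine ⟨wt_pos w a ht0, summable_wt w a hi ht0, ratio_wt w a ht0, fun k d hd => ?_⟩
  have := h t ht k d hd.le
  nlinarith

omit [DecidableEq κ] in
theorem cst_nonneg (w : ι → κ → ℕ) : 0 ≤ cst w :=
  sum_nonneg fun k _ => prod_nonneg fun _ _ => prod_nonneg fun _ _ => by positivity

end Pool.Agent.H71.GC
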